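import Pool.Agent.Lib.MP_62cf67_lc.Embed

/-!
# Infinite arrays in a generic limit with disjoint amalgamation

For every structure `s₀` of the class on `r` points there is an infinite array
`α : ℕ × Fin r → A` all of whose transversals are isomorphic to `s₀`.
-/

namespace Pool.Agent.Lib.MP_62cf67_lc

open FirstOrder FirstOrder.Language FirstOrder.Language.Structure CategoryTheory Set

open scoped FirstOrder

variable {L : FirstOrder.Language.{0, 0}} [L.IsRelational]

/-- A point `p` of a finite set `M` has a twin `q` outside of `M`: exchanging `p` by `q` is an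
embedding of `M`. -/
theorem exists_twin {A : Type} [L.Structure A] (hA : L.IsUltrahomogeneous A)
    (hd : DisjointAmalgamation (L.age A)) (M : Set A) (hM : M.Finite) (p : A) (hp : p ∈ M) :
    ∃ q, q ∉ M ∧ ∃ φ : sub (L := L) M ↪[L] A, φ ⟨p, hp⟩ = q ∧
      ∀ x : sub (L := L) M, (x : A) ≠ p → φ x = x := by
  have hle : sub (L := L) (M \ {p}) ≤ sub (L := L) M := fun a ha => ha.1
  obtain ⟨Q, f', g', hQ, hcomm, hmeet⟩ := hd (subB L (M \ {p})) (subB L M) (subB L M)
    (Substructure.inclusion hle) (Substructure.inclusion hle)
    (subB_mem rfl _ (hM.subset sdiff_subset)) (subB_mem rfl _ hM) (subB_mem rfl _ hM)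
  have hQ' : Nonempty (Q ↪[L] A) := hQ.2
  have hfg : FG L (sub (L := L) M) := Structure.fg_iff_finite.2 hM.to_subtype
  obtain ⟨e, he⟩ := hA.extend_embedding hfg (Substructure.subtype (sub (L := L) M)) f'
  have he' : ∀ x : sub (L := L) M, e (f' x) = x := by
    intro x
    have := congrArg (fun h : sub (L := L) M ↪[L] A => h x) he
    exact this.symm
  refine ⟨e (g' ⟨p, hp⟩), ?_, e.comp g', rfl, ?_⟩
  · intro hq
    have h1 := he' ⟨e (g' ⟨p, hp⟩), hq⟩
    have h2 := e.injective h1
    obtain ⟨m, -, hm⟩ := hmeet _ _ h2
    have h3 : (m : A) = p := congrArg Subtype.val hm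
    exact m.2.2 h3
  · intro x hx
    have h1 := hcomm (⟨x, x.2, hx⟩ : sub (L := L) (M \ {p}))
    have h2 : g' x = f' x := h1.symm
    change e (g' x) = x
    rw [h2]
    exact he' x

/-- The next point of the sequence. -/
theorem exists_next {A : Type} [L.Structure A] (hA : L.IsUltrahomogeneous A)
    (hd : DisjointAmalgamation (L.age A)) (f : ℕ → A) (n m : ℕ) (hmn : m < n) :
    ∃ q, (∀ i < n, q ≠ f i) ∧ ∀ (k : ℕ) (R : L.Relations k) (x : Fin k → A),
      (∀ i, ∃ j < n, x i = f j) → ∀ y : Fin k → A,
        (∀ i, (x i = f m ∧ y i = q) ∨ (x i ≠ f m ∧ y i = x i)) → (RelMap R y ↔ RelMap R x) := by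
  have hfin : (f '' Iio n).Finite := (Set.finite_Iio n).image f
  obtain ⟨q, hq, φ, hφ1, hφ2⟩ := exists_twin hA hd (f '' Iio n) hfin (f m) ⟨m, hmn, rfl⟩
  refine ⟨q, fun i hi h => hq ⟨i, hi, h.symm⟩, ?_⟩
  intro k R x hx y hy
  have hx' : ∀ i, x i ∈ sub (L := L) (f '' Iio n) := by
    intro i
    obtain ⟨j, hj, hxj⟩ := hx i
    exact ⟨j, hj, hxj.symm⟩
  have h1 : y = φ ∘ fun i => (⟨x i, hx' i⟩ : sub (L := L) (f '' Iio n)) := by
    funext i
    rcases hy i with ⟨h2, h3⟩ | ⟨h2, h3⟩
    · have h4 : (⟨x i, hx' i⟩ : sub (L := L) (f '' Iio n)) = ⟨f m, ⟨m, hmn, rfl⟩⟩ :=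
        Subtype.ext h2
      rw [h3, Function.comp_apply, h4, hφ1]
    · rw [h3, Function.comp_apply, hφ2 _ h2]
  rw [h1, φ.map_rel]
  rfl

open Classical in
/-- The approximations of the sequence. -/
noncomputable def stage {A : Type} [L.Structure A] (hA : L.IsUltrahomogeneous A)
    (hd : DisjointAmalgamation (L.age A)) {r : ℕ} (hr : 0 < r) (f : ℕ → A) : ℕ → (ℕ → A)
  | 0 => f
  | n + 1 =>
    if h : r ≤ n then
      Function.update (stage hA hd hr f n) n
        (exists_next hA hd (stage hA hd hr f n) n (n % r)
          ((Nat.mod_lt n hr).trans_le h)).choose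
    else stage hA hd hr f n

section

variable {A : Type} [L.Structure A] (hA : L.IsUltrahomogeneous A)
  (hd : DisjointAmalgamation (L.age A)) {r : ℕ} (hr : 0 < r) (f : ℕ → A)

theorem stage_succ_of_lt (n i : ℕ) (hi : i < n) :
    stage hA hd hr f (n + 1) i = stage hA hd hr f n i := by
  rw [stage]
  split_ifs with h
  · rw [Function.update_of_ne (Nat.ne_of_lt hi)]
  · rfl

theorem stage_eq (n m i : ℕ) (hi : i < n) (hnm : n ≤ m) :
    stage hA hd hr f m i = stage hA hd hr f n i := by
  induction m, hnm using Nat.le_induction with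
  | base => rfl
  | succ m hm ih => rw [stage_succ_of_lt hA hd hr f m i (hi.trans_le hm), ih]

theorem stage_of_le (n : ℕ) (hn : n ≤ r) : stage hA hd hr f n = f := by
  induction n with
  | zero => rfl
  | succ n ih =>
    rw [stage, dif_neg (by omega)]
    exact ih (by omega)

/-- The sequence. -/
noncomputable def seqA (n : ℕ) : A := stage hA hd hr f (n + 1) n

theorem stage_eq_seqA (n i : ℕ) (hi : i < n) : stage hA hd hr f n i = seqA hA hd hr f i :=
  stage_eq hA hd hr f (i + 1) n i (Nat.lt_succ_self i) hi

theorem seqA_of_lt (n : ℕ) (hn : n < r) : seqA hA hd hr f n = f n := by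
  unfold seqA
  rw [stage_of_le hA hd hr f (n + 1) hn]

theorem seqA_spec (n : ℕ) (hn : r ≤ n) :
    (∀ i < n, seqA hA hd hr f n ≠ seqA hA hd hr f i) ∧
      ∀ (k : ℕ) (R : L.Relations k) (x : Fin k → A),
        (∀ i, ∃ j < n, x i = seqA hA hd hr f j) → ∀ y : Fin k → A,
        (∀ i, (x i = seqA hA hd hr f (n % r) ∧ y i = seqA hA hd hr f n) ∨
          (x i ≠ seqA hA hd hr f (n % r) ∧ y i = x i)) → (RelMap R y ↔ RelMap R x) := by
  have hmod : n % r < n := (Nat.mod_lt n hr).trans_le hn
  have hval : seqA hA hd hr f n = (exists_next hA hd (stage hA hd hr f n) n (n % r)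
          ((Nat.mod_lt n hr).trans_le hn)).choose := by
    unfold seqA
    rw [stage, dif_pos hn, Function.update_self]
  have hspec := (exists_next hA hd (stage hA hd hr f n) n (n % r)
          ((Nat.mod_lt n hr).trans_le hn)).choose_spec
  rw [← hval] at hspec
  constructor
  · intro i hi
    have := hspec.1 i hi
    rwa [stage_eq_seqA hA hd hr f n i hi] at this
  · intro k R x hx y hy
    refine hspec.2 k R x ?_ y ?_
    · intro i
      obtain ⟨j, hj, h⟩ := hx i
      exact ⟨j, hj, by rw [stage_eq_seqA hA hd hr f n j hj]; exact h⟩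
    · intro i
      rw [stage_eq_seqA hA hd hr f n (n % r) hmod]
      exact hy i

end

/-- Every structure of the class on `r` points has an infinite array in the limit. -/
theorem exists_array {A : Type} [L.Structure A] (hA : L.IsUltrahomogeneous A)
    (hd : DisjointAmalgamation (L.age A)) {r : ℕ} (hr : 0 < r) (s₀ : L.Structure (Fin r))
    (h₀ : Bundled.mk (Fin r) s₀ ∈ L.age A) :
    ∃ α : ℕ × Fin r → A, Function.Injective α ∧
      ∀ (w : Fin r → ℕ) (k : ℕ) (R : L.Relations k) (x : Fin k → Fin r),
        RelMap R (fun i => α (w (x i), x i)) ↔ s₀.RelMap R x := by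
  classical
  obtain ⟨ε⟩ := h₀.2
  let f : ℕ → A := fun n => if h : n < r then ε ⟨n, h⟩ else ε ⟨0, hr⟩
  let a : ℕ → A := seqA hA hd hr f
  have ha0 : ∀ (n : ℕ) (h : n < r), a n = ε ⟨n, h⟩ := by
    intro n h
    change seqA hA hd hr f n = _
    rw [seqA_of_lt hA hd hr f n h]
    simp only [f, h, dif_pos]
  have hinj : ∀ m n : ℕ, m < n → a m ≠ a n := by
    intro m n hmn h
    by_cases hn : r ≤ n
    · exact (seqA_spec hA hd hr f n hn).1 m hmn h.symm
    · push Not at hn
      rw [ha0 n hn, ha0 m (hmn.trans hn)] at h
      have h1 := ε.injective h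
      have h2 : m = n := congrArg Fin.val h1
      omega
  have hinj' : Function.Injective a := by
    intro m n h
    rcases lt_trichotomy m n with h1 | h1 | h1
    · exact absurd h (hinj m n h1)
    · exact h1
    · exact absurd h.symm (hinj n m h1)
  have hmain : ∀ (N : ℕ) (w : Fin r → ℕ), (∀ j, w j % r = j) → (∀ j, w j < N) →
      ∀ (k : ℕ) (R : L.Relations k) (x : Fin k → Fin r),
        RelMap R (fun i => a (w (x i))) ↔ s₀.RelMap R x := by
    intro N
    induction N with
    | zero =>
      intro w _ hw
      exact absurd (hw ⟨0, hr⟩) (Nat.not_lt_zero _)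
    | succ N ih =>
      intro w hw1 hw2 k R x
      by_cases hN : r ≤ N
      · by_cases hex : ∃ j, w j = N
        · obtain ⟨j₀, hj₀⟩ := hex
          have hmod : N % r = j₀ := by rw [← hj₀]; exact hw1 j₀
          have hw' := ih (Function.update w j₀ (j₀ : ℕ)) ?_ ?_ k R x
          · rw [← hw']
            refine (seqA_spec hA hd hr f N hN).2 k R _ ?_ _ ?_
            · intro i
              by_cases hxi : x i = j₀
              · refine ⟨j₀, j₀.2.trans_le hN, ?_⟩
                rw [hxi, Function.update_self]
              · refine ⟨w (x i), ?_, ?_⟩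
                · have h1 := hw2 (x i)
                  have h2 : w (x i) ≠ N := by
                    intro h
                    have h3 := hw1 (x i)
                    rw [h, hmod] at h3
                    exact hxi (Fin.ext h3.symm)
                  omega
                · rw [Function.update_of_ne hxi]
            · intro i
              rw [hmod]
              by_cases hxi : x i = j₀
              · left
                rw [hxi, Function.update_self, hj₀]
                exact ⟨rfl, rfl⟩
              · right
                rw [Function.update_of_ne hxi]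
                refine ⟨fun h => ?_, rfl⟩
                have h1 : w (x i) = j₀ := hinj' h
                have h2 := hw1 (x i)
                rw [h1, Nat.mod_eq_of_lt j₀.2] at h2
                exact hxi (Fin.ext h2.symm)
          · intro j
            by_cases hj : j = j₀
            · rw [hj, Function.update_self, Nat.mod_eq_of_lt j₀.2]
            · rw [Function.update_of_ne hj]
              exact hw1 j
          · intro j
            by_cases hj : j = j₀
            · rw [hj, Function.update_self]
              exact j₀.2.trans_le hN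
            · rw [Function.update_of_ne hj]
              have h1 := hw2 j
              have h2 : w j ≠ N := by
                intro h
                have h3 := hw1 j
                rw [h, hmod] at h3
                exact hj (Fin.ext h3.symm)
              omega
        · push Not at hex
          refine ih w hw1 (fun j => ?_) k R x
          have h1 := hw2 j
          have h2 := hex j
          omega
      · have hw3 : ∀ j, w j = j := by
          intro j
          have h1 := hw1 j
          have h2 := hw2 j
          rw [Nat.mod_eq_of_lt (by omega)] at h1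
          exact h1
        have h4 : (fun i => a (w (x i))) = fun i => ε (x i) := by
          funext i
          rw [hw3, ha0 _ (x i).2]
        rw [h4]
        exact ε.map_rel R x
  refine ⟨fun p => a (p.1 * r + p.2), ?_, ?_⟩
  · rintro ⟨v, j⟩ ⟨v', j'⟩ h
    have h1 : v * r + j = v' * r + j' := hinj' h
    have h2 : (j : ℕ) = j' := by
      have := congrArg (· % r) h1
      simp only [Nat.mul_add_mod_self_right, Nat.mod_eq_of_lt j.2, Nat.mod_eq_of_lt j'.2] at this
      exact this
    have h3 : v = v' := by
      have h4 : v * r = v' * r := by omega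
      exact Nat.eq_of_mul_eq_mul_right hr h4
    rw [h3, Fin.ext h2]
  · intro w k R x
    refine hmain ((Finset.univ.sup fun j : Fin r => w j * r + j) + 1)
      (fun j => w j * r + j) ?_ ?_ k R x
    · intro j
      rw [Nat.mul_add_mod_self_right, Nat.mod_eq_of_lt j.2]
    · intro j
      have := Finset.le_sup (f := fun j : Fin r => w j * r + j) (Finset.mem_univ j)
      exact Nat.lt_succ_of_le this

end Pool.Agent.Lib.MP_62cf67_lc
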