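import Pool.Agent.Lib.MP_62cf67_lc.Upper

/-!
# The reduct of a class that is free in `F` to the symbols outside `F`

The reduct of the generic limit is ultrahomogeneous and its age has disjoint amalgamation.
-/

namespace Pool.Agent.Lib.MP_62cf67_lc

open FirstOrder FirstOrder.Language FirstOrder.Language.Structure CategoryTheory Set

open scoped FirstOrder

variable {L : FirstOrder.Language.{0, 0}} [L.IsRelational]

/-- The structure on `V` with the base relations from `j`, and the relations of `F` from `h` on `X`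
and from `j` on the complement of `X`. -/
@[instance_reducible]
def glue (F : ∀ n, Set (L.Relations n)) {V A : Type} [L.Structure A] (j h : V → A) (X : Set V) :
    L.Structure V where
  funMap := fun f => isEmptyElim f
  RelMap := fun R x => (R ∉ F _ ∧ RelMap R fun i => j (x i)) ∨
    (R ∈ F _ ∧ (((∀ i, x i ∈ X) ∧ RelMap R fun i => h (x i)) ∨
      ((∀ i, x i ∈ Xᶜ) ∧ RelMap R fun i => j (x i))))

theorem glue_base (F : ∀ n, Set (L.Relations n)) {V A : Type} [L.Structure A] (j h : V → A)
    (X : Set V) {k : ℕ} (R : L.Relations k) (hR : R ∉ F k) (x : Fin k → V) :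
    (glue F j h X).RelMap R x ↔ RelMap R fun i => j (x i) := by
  constructor
  · rintro (h1 | h1)
    · exact h1.2
    · exact absurd h1.1 hR
  · exact fun h1 => Or.inl ⟨hR, h1⟩

theorem glue_in (F : ∀ n, Set (L.Relations n)) {V A : Type} [L.Structure A] (j h : V → A)
    (X : Set V) (hbase : ∀ (k : ℕ) (R : L.Relations k) (x : Fin k → V), R ∉ F k →
      (∀ i, x i ∈ X) → (RelMap R (fun i => h (x i)) ↔ RelMap R fun i => j (x i)))
    {k : ℕ} (R : L.Relations k) (x : Fin k → V) (hx : ∀ i, x i ∈ X) :
    (glue F j h X).RelMap R x ↔ RelMap R fun i => h (x i) := by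
  by_cases hR : R ∈ F k
  · constructor
    · rintro (h1 | ⟨-, h1 | h1⟩)
      · exact absurd hR h1.1
      · exact h1.2
      · -- only possible for the empty tuple
        rcases Nat.eq_zero_or_pos k with hk | hk
        · subst hk
          have h2 : (fun i => h (x i)) = fun i => j (x i) := by
            funext i
            exact i.elim0
          rw [h2]
          exact h1.2
        · exact absurd (hx ⟨0, hk⟩) (h1.1 ⟨0, hk⟩)
    · exact fun h1 => Or.inr ⟨hR, Or.inl ⟨hx, h1⟩⟩
  · rw [glue_base F j h X R hR]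
    exact (hbase k R x hR hx).symm

theorem glue_out (F : ∀ n, Set (L.Relations n)) {V A : Type} [L.Structure A] (j h : V → A)
    (X : Set V) {k : ℕ} (R : L.Relations k) (x : Fin k → V) (hx : ∀ i, x i ∈ Xᶜ) :
    (glue F j h X).RelMap R x ↔ RelMap R fun i => j (x i) := by
  by_cases hR : R ∈ F k
  · constructor
    · rintro (h1 | ⟨-, h1 | h1⟩)
      · exact h1.2
      · rcases Nat.eq_zero_or_pos k with hk | hk
        · subst hk
          have h2 : (fun i => j (x i)) = fun i => h (x i) := by
            funext i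
            exact i.elim0
          rw [h2]
          exact h1.2
        · exact absurd (h1.1 ⟨0, hk⟩) (hx ⟨0, hk⟩)
      · exact h1.2
    · exact fun h1 => Or.inr ⟨hR, Or.inr ⟨hx, h1⟩⟩
  · exact glue_base F j h X R hR x

theorem glue_mem {K : Set (Bundled.{0} L.Structure)} {F : ∀ n, Set (L.Relations n)}
    (hF : FreeIn K F) {A : Type} [L.Structure A] (hage : L.age A = K) {V : Type} [Finite V]
    (j h : V → A) (X : Set V) (hj : Function.Injective j) (hh : InjOn h X)
    (hbase : ∀ (k : ℕ) (R : L.Relations k) (x : Fin k → V), R ∉ F k →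
      (∀ i, x i ∈ X) → (RelMap R (fun i => h (x i)) ↔ RelMap R fun i => j (x i))) :
    Bundled.mk V (glue F j h X) ∈ K := by
  refine hF V (glue F j h X) ‹_› X Xᶜ (union_compl_self X) ?_ ?_ ?_ ?_
  · rintro k R x hR (h1 | ⟨-, h1 | h1⟩)
    · exact absurd hR h1.1
    · exact Or.inl h1.1
    · exact Or.inr h1.1
  · rw [← hage]
    let _ : L.Structure V := glue F j h X
    refine (mem_age_iff _).2 ⟨inferInstanceAs (Finite X), ⟨toEmb (fun v => h v.1) ?_ ?_⟩⟩
    · intro a b hab
      exact Subtype.ext (hh a.2 b.2 hab)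
    · intro k R x
      exact (glue_in F j h X hbase R (fun i => (x i).1) fun i => (x i).2).symm
  · rw [← hage]
    let _ : L.Structure V := glue F j h X
    refine (mem_age_iff _).2 ⟨inferInstanceAs (Finite (Xᶜ : Set V)),
      ⟨toEmb (fun v => j v.1) ?_ ?_⟩⟩
    · intro a b hab
      exact Subtype.ext (hj hab)
    · intro k R x
      exact (glue_out F j h X R (fun i => (x i).1) fun i => (x i).2).symm
  · refine ⟨pull j, ?_, fun k R x hR => (glue_base F j h X R hR x).symm⟩
    rw [← hage]
    exact pull_mem j hj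

theorem extend_glue {K : Set (Bundled.{0} L.Structure)} {F : ∀ n, Set (L.Relations n)}
    (hF : FreeIn K F) {A : Type} [L.Structure A] (hA : L.IsUltrahomogeneous A)
    (hage : L.age A = K) {V : Type} [Finite V] (j h : V → A) (X : Set V)
    (hj : Function.Injective j) (hh : InjOn h X)
    (hbase : ∀ (k : ℕ) (R : L.Relations k) (x : Fin k → V), R ∉ F k →
      (∀ i, x i ∈ X) → (RelMap R (fun i => h (x i)) ↔ RelMap R fun i => j (x i))) :
    ∃ f' : V → A, Function.Injective f' ∧ (∀ v ∈ X, f' v = h v) ∧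
      ∀ (k : ℕ) (R : L.Relations k) (x : Fin k → V), R ∉ F k →
        (RelMap R (fun i => f' (x i)) ↔ RelMap R fun i => j (x i)) := by
  have hmem := glue_mem hF hage j h X hj hh hbase
  rw [← hage] at hmem
  let sV : L.Structure V := glue F j h X
  have hne : Nonempty (@Language.Embedding L V A sV _) := hmem.2
  have hfg : FG L (sub (L := L) X) :=
    Structure.fg_iff_finite.2 (inferInstanceAs (Finite X))
  let e₁ : sub (L := L) X ↪[L] A := toEmb (fun v => h v.1)
    (fun a b hab => Subtype.ext (hh a.2 b.2 hab))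
    (fun k R x => (glue_in F j h X hbase R (fun i => (x i).1) fun i => (x i).2).symm)
  obtain ⟨f', hf'⟩ := hA.extend_embedding (T := V) hfg e₁ (Substructure.subtype _)
  refine ⟨f', f'.injective, ?_, ?_⟩
  · intro v hv
    have h1 := congrArg (fun g : sub (L := L) X ↪[L] A => g ⟨v, hv⟩) hf'
    have h2 : e₁ ⟨v, hv⟩ = f' v := h1
    rw [← h2]
    rfl
  · intro k R x hR
    have h1 := f'.map_rel R x
    have h2 := glue_base F j h X R hR x
    exact h1.trans h2

/-- The reduct of the generic limit of a class that is free in `F` is ultrahomogeneous. -/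
theorem base_ultrahomogeneous {K : Set (Bundled.{0} L.Structure)} {F : ∀ n, Set (L.Relations n)}
    (hF : FreeIn K F) {A : Type} [L.Structure A] [Countable A] (hA : L.IsUltrahomogeneous A)
    (hage : L.age A = K) : (baseLanguage F).IsUltrahomogeneous A := by
  classical
  rw [isUltrahomogeneous_iff_IsExtensionPair Structure.cg_of_countable,
    isExtensionPair_iff_exists_embedding_closure_singleton_sup]
  intro S hS f m
  have hSf : Finite S := hS.finite
  have hfin : Finite (Substructure.closure (baseLanguage F) {m} ⊔ S :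
      (baseLanguage F).Substructure A) :=
    ((Substructure.fg_closure_singleton m).sup hS).finite
  set T : (baseLanguage F).Substructure A := Substructure.closure (baseLanguage F) {m} ⊔ S
    with hT
  let j : T → A := fun v => v.1
  let h : T → A := fun v => if hv : v.1 ∈ S then f ⟨v.1, hv⟩ else m
  let X : Set T := {v | v.1 ∈ S}
  have hj : Function.Injective j := Subtype.val_injective
  have hhX : ∀ v : T, ∀ hv : v.1 ∈ S, h v = f ⟨v.1, hv⟩ := by
    intro v hv
    simp only [h, hv, dif_pos]
  have hh : InjOn h X := by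
    intro a ha b hb hab
    rw [hhX a ha, hhX b hb] at hab
    have h1 := congrArg Subtype.val (f.injective hab)
    exact Subtype.ext h1
  have hbase : ∀ (k : ℕ) (R : L.Relations k) (x : Fin k → T), R ∉ F k →
      (∀ i, x i ∈ X) → (RelMap R (fun i => h (x i)) ↔ RelMap R fun i => j (x i)) := by
    intro k R x hR hx
    have h1 := f.map_rel (⟨R, hR⟩ : (baseLanguage F).Relations k)
      (fun i => (⟨(x i).1, hx i⟩ : S))
    have h2 : (fun i => h (x i)) = f ∘ fun i => (⟨(x i).1, hx i⟩ : S) := by
      funext i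
      exact hhX _ (hx i)
    rw [h2]
    exact h1
  obtain ⟨f', hf'i, hf'X, hf'R⟩ := extend_glue hF hA hage j h X hj hh hbase
  refine ⟨⟨⟨f', hf'i⟩, fun g => isEmptyElim g, ?_⟩, ?_⟩
  · intro k R x
    exact hf'R k R.1 x R.2
  · ext v
    have hv : v.1 ∈ T := (le_sup_right : S ≤ T) v.2
    have h1 : f' ⟨v.1, hv⟩ = f v := by
      rw [hf'X ⟨v.1, hv⟩ v.2, hhX ⟨v.1, hv⟩ v.2]
    exact h1.symm

/-- The amalgam of two structures that embed in `A`, on the level of the base relations. -/
theorem disjoint_maps {K : Set (Bundled.{0} L.Structure)} (hd : DisjointAmalgamation K)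
    {A : Type} [L.Structure A] (hage : L.age A = K) {M N P : Type}
    (sM : L.Structure M) (sN : L.Structure N) (sP : L.Structure P)
    (hM : Bundled.mk M sM ∈ K) (hN : Bundled.mk N sN ∈ K) (hP : Bundled.mk P sP ∈ K)
    (f : M → N) (g : M → P) (hf : Function.Injective f) (hg : Function.Injective g)
    (hfr : ∀ (k : ℕ) (R : L.Relations k) (x : Fin k → M),
      sN.RelMap R (fun i => f (x i)) ↔ sM.RelMap R x)
    (hgr : ∀ (k : ℕ) (R : L.Relations k) (x : Fin k → M),
      sP.RelMap R (fun i => g (x i)) ↔ sM.RelMap R x) :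
    ∃ (f' : N → A) (g' : P → A), Function.Injective f' ∧ Function.Injective g' ∧
      (∀ m, f' (f m) = g' (g m)) ∧ (∀ n p, f' n = g' p → ∃ m, f m = n ∧ g m = p) ∧
      (∀ (k : ℕ) (R : L.Relations k) (x : Fin k → N),
        RelMap R (fun i => f' (x i)) ↔ sN.RelMap R x) ∧
      ∀ (k : ℕ) (R : L.Relations k) (x : Fin k → P),
        RelMap R (fun i => g' (x i)) ↔ sP.RelMap R x := by
  let f₁ : M ↪[L] N := toEmb f hf (fun k R x => hfr k R x)
  let g₁ : M ↪[L] P := toEmb g hg (fun k R x => hgr k R x)
  obtain ⟨⟨Q, sQ⟩, f', g', hQ, hcomm, hmeet⟩ :=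
    hd ⟨M, sM⟩ ⟨N, sN⟩ ⟨P, sP⟩ f₁ g₁ hM hN hP
  rw [← hage] at hQ
  obtain ⟨q₀⟩ := hQ.2
  refine ⟨fun n => q₀ (f' n), fun p => q₀ (g' p), ?_, ?_, ?_, ?_, ?_, ?_⟩
  · exact fun a b hab => f'.injective (q₀.injective hab)
  · exact fun a b hab => g'.injective (q₀.injective hab)
  · exact fun m => congrArg q₀ (hcomm m)
  · exact fun n p h => hmeet n p (q₀.injective h)
  · intro k R x
    exact (q₀.map_rel R (fun i => f' (x i))).trans (f'.map_rel R x)
  · intro k R x
    exact (q₀.map_rel R (fun i => g' (x i))).trans (g'.map_rel R x)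

/-- The age of the reduct has disjoint amalgamation. -/
theorem base_disjoint {K : Set (Bundled.{0} L.Structure)} {F : ∀ n, Set (L.Relations n)}
    (hF : FreeIn K F) {A : Type} [L.Structure A] (hage : L.age A = K)
    (hd : DisjointAmalgamation K) : DisjointAmalgamation ((baseLanguage F).age A) := by
  classical
  rintro ⟨M, sM⟩ ⟨N, sN⟩ ⟨P, sP⟩ f g hM hN hP
  obtain ⟨n₀⟩ := hN.2
  obtain ⟨p₀⟩ := hP.2
  have hMf : Finite M := Structure.fg_iff_finite.1 hM.1
  have hNf : Finite N := Structure.fg_iff_finite.1 hN.1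
  have hPf : Finite P := Structure.fg_iff_finite.1 hP.1
  have hn₀ : ∀ (k : ℕ) (R : L.Relations k) (hR : R ∉ F k) (x : Fin k → N),
      RelMap R (fun i => n₀ (x i)) ↔ sN.RelMap (⟨R, hR⟩ : (baseLanguage F).Relations k) x :=
    fun k R hR x => n₀.map_rel (⟨R, hR⟩ : (baseLanguage F).Relations k) x
  have hp₀ : ∀ (k : ℕ) (R : L.Relations k) (hR : R ∉ F k) (x : Fin k → P),
      RelMap R (fun i => p₀ (x i)) ↔ sP.RelMap (⟨R, hR⟩ : (baseLanguage F).Relations k) x :=
    fun k R hR x => p₀.map_rel (⟨R, hR⟩ : (baseLanguage F).Relations k) x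
  have hfrel : ∀ (k : ℕ) (R : L.Relations k) (hR : R ∉ F k) (x : Fin k → M),
      sN.RelMap (⟨R, hR⟩ : (baseLanguage F).Relations k) (fun i => f (x i)) ↔
        sM.RelMap (⟨R, hR⟩ : (baseLanguage F).Relations k) x :=
    fun k R hR x => f.map_rel (⟨R, hR⟩ : (baseLanguage F).Relations k) x
  have hgrel : ∀ (k : ℕ) (R : L.Relations k) (hR : R ∉ F k) (x : Fin k → M),
      sP.RelMap (⟨R, hR⟩ : (baseLanguage F).Relations k) (fun i => g (x i)) ↔
        sM.RelMap (⟨R, hR⟩ : (baseLanguage F).Relations k) x :=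
    fun k R hR x => g.map_rel (⟨R, hR⟩ : (baseLanguage F).Relations k) x
  have hn₀i : Function.Injective n₀ := n₀.injective
  have hp₀i : Function.Injective p₀ := p₀.injective
  have hfi : Function.Injective f := f.injective
  have hgi : Function.Injective g := g.injective
  let X : Set P := range g
  let h : P → A := fun p => if hp : ∃ m, g m = p then n₀ (f hp.choose) else p₀ p
  have hhX : ∀ m, h (g m) = n₀ (f m) := by
    intro m
    have hp : ∃ m', g m' = g m := ⟨m, rfl⟩
    have h1 : hp.choose = m := hgi hp.choose_spec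
    simp only [h, hp, dif_pos]
    rw [h1]
  have hh : InjOn h X := by
    rintro _ ⟨a, rfl⟩ _ ⟨b, rfl⟩ hab
    rw [hhX, hhX] at hab
    rw [hfi (hn₀i hab)]
  have hbase : ∀ (k : ℕ) (R : L.Relations k) (x : Fin k → P), R ∉ F k →
      (∀ i, x i ∈ X) → (RelMap R (fun i => h (x i)) ↔ RelMap R fun i => p₀ (x i)) := by
    intro k R x hR hx
    choose m hm using hx
    have h1 : x = fun i => g (m i) := by
      funext i
      exact (hm i).symm
    subst h1
    simp only [hhX]
    rw [hn₀ k R hR, hfrel k R hR, hp₀ k R hR (fun i => g (m i)), hgrel k R hR]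
  have hmem := glue_mem hF hage (fun p => p₀ p) h X hp₀i hh hbase
  have hmemN : (⟨N, pull fun n => n₀ n⟩ : Bundled.{0} L.Structure) ∈ K := by
    rw [← hage]; exact pull_mem _ hn₀i
  have hmemM : (⟨M, pull fun m => n₀ (f m)⟩ : Bundled.{0} L.Structure) ∈ K := by
    rw [← hage]; exact pull_mem _ (hn₀i.comp hfi)
  obtain ⟨f', g', hf'i, hg'i, hcomm, hmeet, hf'R, hg'R⟩ := disjoint_maps hd hage _ _ _ hmemM
    hmemN hmem f g hfi hgi (fun k R x => Iff.rfl)
    (fun k R x => by
        have h1 := glue_in F (fun p => p₀ p) h X hbase R (fun i => g (x i))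
          (fun i => ⟨x i, rfl⟩)
        simp only [hhX] at h1
        exact h1)
  -- the amalgam is the substructure of the reduct on the union of the two images
  let Q : (baseLanguage F).Substructure A := sub (range f' ∪ range g')
  refine ⟨⟨Q, inferInstance⟩,
    ⟨⟨fun n => ⟨f' n, Or.inl ⟨n, rfl⟩⟩, fun a b hab => hf'i (congrArg Subtype.val hab)⟩,
      fun u => isEmptyElim u, ?_⟩,
    ⟨⟨fun p => ⟨g' p, Or.inr ⟨p, rfl⟩⟩, fun a b hab => hg'i (congrArg Subtype.val hab)⟩,
      fun u => isEmptyElim u, ?_⟩, ?_, fun m => Subtype.ext (hcomm m),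
    fun n p h => hmeet n p (congrArg Subtype.val h)⟩
  · intro k R x
    exact (hf'R k R.1 x).trans (hn₀ k R.1 R.2 x)
  · intro k R x
    have h1 := hg'R k R.1 x
    have h2 := glue_base F (fun p => p₀ p) h X R.1 R.2 x
    exact h1.trans (h2.trans (hp₀ k R.1 R.2 x))
  · exact subB_mem rfl _ ((finite_range f').union (finite_range g'))

omit [L.IsRelational] in
/-- The reduct is coded in the limit. -/
theorem codes_base (F : ∀ n, Set (L.Relations n)) {A : Type} [L.Structure A] :
    Codes (baseLanguage F) L A A := by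
  refine codes_of (J := Unit) (fun a _ => a) (fun a a' h => congrFun h ()) ?_
  intro n R
  refine ⟨Unit, inferInstance, fun _ => relF R.1 fun i => (i, ()), fun _ => relF_isQF _ _, ?_⟩
  intro a a' hpat hR
  have h := hpat ()
  rw [realize_relF, realize_relF] at h
  exact h.1 hR

end Pool.Agent.Lib.MP_62cf67_lc
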