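import Pool.Agent.Lib.MP_62cf67_lc.Defs

/-!
# Quantifier-free definability from finitely many formulas
-/

namespace Pool.Agent.Lib.MP_62cf67_lc

open FirstOrder FirstOrder.Language FirstOrder.Language.Structure Set

open scoped FirstOrder

variable {L : FirstOrder.Language.{0, 0}}

/-- The formula that says that two variables are equal. -/
def eqF {α : Type} (p q : α) : L.Formula α := Term.equal (Term.var p) (Term.var q)

theorem eqF_isQF {α : Type} (p q : α) : (eqF (L := L) p q).IsQF :=
  (BoundedFormula.IsAtomic.equal _ _).isQF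

theorem realize_eqF {α : Type} (p q : α) {A : Type} [L.Structure A] (v : α → A) :
    (eqF (L := L) p q).Realize v ↔ v p = v q := by
  simp [eqF, Formula.realize_equal]

/-- The formula that says that a relation holds for a tuple of variables. -/
def relF {α : Type} {k : ℕ} (R : L.Relations k) (x : Fin k → α) : L.Formula α :=
  R.formula fun i => Term.var (x i)

theorem relF_isQF {α : Type} {k : ℕ} (R : L.Relations k) (x : Fin k → α) :
    (relF R x).IsQF :=
  (BoundedFormula.IsAtomic.rel _ _).isQF

theorem realize_relF {α : Type} {k : ℕ} (R : L.Relations k) (x : Fin k → α) {A : Type}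
    [L.Structure A] (v : α → A) : (relF R x).Realize v ↔ RelMap R fun i => v (x i) := by
  simp [relF, Formula.realize_rel]

/-- A property that depends only on the truth values of finitely many formulas is given by a
formula, which is quantifier-free if the given formulas are. -/
theorem exists_bool_fin {α : Type} : ∀ (k : ℕ) (φ : Fin k → L.Formula α),
    ∀ S : Set (Fin k → Prop), ∃ θ : L.Formula α, ((∀ i, (φ i).IsQF) → θ.IsQF) ∧
      ∀ (A : Type) [L.Structure A] (v : α → A),
        θ.Realize v ↔ (fun i => (φ i).Realize v) ∈ S := by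
  classical
  intro k
  induction k with
  | zero =>
    intro φ S
    by_cases h : (fun i : Fin 0 => i.elim0) ∈ S
    · refine ⟨⊤, fun _ => BoundedFormula.IsQF.top, fun A _ v => ?_⟩
      have h1 : (fun i => (φ i).Realize v) = fun i : Fin 0 => i.elim0 := by
        funext i
        exact i.elim0
      rw [h1]
      simp [Formula.Realize, h]
    · refine ⟨⊥, fun _ => BoundedFormula.isQF_bot, fun A _ v => ?_⟩
      have h1 : (fun i => (φ i).Realize v) = fun i : Fin 0 => i.elim0 := by
        funext i
        exact i.elim0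
      rw [h1]
      simp [Formula.Realize, h]
  | succ k ih =>
    intro φ S
    obtain ⟨θ₁, h₁, r₁⟩ := ih (fun i => φ i.succ)
      {p | (Fin.cons True p : Fin (k + 1) → Prop) ∈ S}
    obtain ⟨θ₀, h₀, r₀⟩ := ih (fun i => φ i.succ)
      {p | (Fin.cons False p : Fin (k + 1) → Prop) ∈ S}
    refine ⟨(φ 0 ⊓ θ₁) ⊔ (∼(φ 0) ⊓ θ₀), fun hφ => ((hφ 0).inf (h₁ fun _ => hφ _)).sup
      ((hφ 0).not.inf (h₀ fun _ => hφ _)), fun A _ v => ?_⟩
    have hcons : (fun i => (φ i).Realize v) =
        (Fin.cons ((φ 0).Realize v) (fun i : Fin k => (φ i.succ).Realize v) :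
          Fin (k + 1) → Prop) := by
      funext i
      refine Fin.cases ?_ (fun j => ?_) i
      · simp
      · simp
    have e1 := r₁ A v
    have e0 := r₀ A v
    rw [Set.mem_ofPred_eq] at e1 e0
    rw [hcons]
    by_cases h : (φ 0).Realize v
    · have hp : (φ 0).Realize v = True := propext ⟨fun _ => trivial, fun _ => h⟩
      rw [hp]
      have h' := h
      simp only [Formula.Realize] at h' e1 e0 ⊢
      rw [BoundedFormula.realize_sup, BoundedFormula.realize_inf, BoundedFormula.realize_inf,
        BoundedFormula.realize_not]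
      simp only [h', true_and, not_true_eq_false, false_and, or_false]
      exact e1
    · have hp : (φ 0).Realize v = False := propext ⟨fun h' => h h', fun h' => h'.elim⟩
      rw [hp]
      have h' := h
      simp only [Formula.Realize] at h' e1 e0 ⊢
      rw [BoundedFormula.realize_sup, BoundedFormula.realize_inf, BoundedFormula.realize_inf,
        BoundedFormula.realize_not]
      simp only [h', false_and, not_false_eq_true, true_and, false_or]
      exact e0

theorem exists_bool {α ι : Type} [Finite ι] (φ : ι → L.Formula α)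
    (S : Set (ι → Prop)) : ∃ θ : L.Formula α, ((∀ i, (φ i).IsQF) → θ.IsQF) ∧
      ∀ (A : Type) [L.Structure A] (v : α → A),
        θ.Realize v ↔ (fun i => (φ i).Realize v) ∈ S := by
  obtain ⟨k, ⟨e⟩⟩ := Finite.exists_equiv_fin ι
  obtain ⟨θ, h, hr⟩ := exists_bool_fin k (fun i => φ (e.symm i))
    {p | (fun i => p (e i)) ∈ S}
  refine ⟨θ, fun hφ => h fun i => hφ _, fun A _ v => ?_⟩
  rw [hr A v, Set.mem_ofPred_eq]
  simp

theorem exists_qf {α ι : Type} [Finite ι] (φ : ι → L.Formula α) (hφ : ∀ i, (φ i).IsQF)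
    (S : Set (ι → Prop)) : ∃ θ : L.Formula α, θ.IsQF ∧
      ∀ (A : Type) [L.Structure A] (v : α → A),
        θ.Realize v ↔ (fun i => (φ i).Realize v) ∈ S := by
  obtain ⟨θ, h, hr⟩ := exists_bool φ S
  exact ⟨θ, h hφ, hr⟩

/-- The common form of `Codes` (for `q := True`) and `CodedIn` (for `q := False`). -/
def CodesG (q : Prop) (L₁ L₂ : FirstOrder.Language.{0, 0}) (A₁ A₂ : Type) [L₁.Structure A₁]
    [L₂.Structure A₂] : Prop :=
  ∃ m : ℕ, 0 < m ∧ ∃ u : A₁ → Fin m → A₂, Function.Injective u ∧
    ∀ (r : ℕ) (R : L₁.Relations r), ∃ θ : L₂.Formula (Fin r × Fin m), (q → θ.IsQF) ∧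
      ∀ a : Fin r → A₁, RelMap R a ↔ θ.Realize fun p => u (a p.1) p.2

theorem codesG_true {L₁ L₂ : FirstOrder.Language.{0, 0}} {A₁ A₂ : Type} [L₁.Structure A₁]
    [L₂.Structure A₂] : CodesG True L₁ L₂ A₁ A₂ ↔ Codes L₁ L₂ A₁ A₂ := by
  unfold CodesG Codes
  simp only [true_implies]

theorem codesG_false {L₁ L₂ : FirstOrder.Language.{0, 0}} {A₁ A₂ : Type} [L₁.Structure A₁]
    [L₂.Structure A₂] : CodesG False L₁ L₂ A₁ A₂ ↔ CodedIn L₁ L₂ A₁ A₂ := by
  unfold CodesG CodedIn
  simp only [false_implies, true_and]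

/-- A criterion for codings: every relation is determined by the truth values of finitely many
formulas. -/
theorem codesG_of {q : Prop} {L₁ L₂ : FirstOrder.Language.{0, 0}} {A₁ A₂ : Type}
    [L₁.Structure A₁] [L₂.Structure A₂] {J : Type} [Finite J] [Nonempty J] (u : A₁ → J → A₂)
    (hu : Function.Injective u)
    (h : ∀ (r : ℕ) (R : L₁.Relations r), ∃ (ι : Type) (_ : Finite ι)
      (φ : ι → L₂.Formula (Fin r × J)), (∀ i, q → (φ i).IsQF) ∧ ∀ a a' : Fin r → A₁,
        (∀ i, ((φ i).Realize fun p => u (a p.1) p.2) ↔ (φ i).Realize fun p => u (a' p.1) p.2) →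
          RelMap R a → RelMap R a') : CodesG q L₁ L₂ A₁ A₂ := by
  obtain ⟨m, ⟨e⟩⟩ := Finite.exists_equiv_fin J
  have hm : 0 < m := by
    rcases Nat.eq_zero_or_pos m with rfl | hm
    · exact (e (Classical.arbitrary J)).elim0
    · exact hm
  refine ⟨m, hm, fun a i => u a (e.symm i), fun a b hab => hu ?_, fun r R => ?_⟩
  · funext j
    have := congrFun hab (e j)
    simpa using this
  · obtain ⟨ι, _, φ, hφ, hd⟩ := h r R
    obtain ⟨θ, hθ, hr⟩ := exists_bool φ
      {p | ∃ a : Fin r → A₁, RelMap R a ∧ p = fun i => (φ i).Realize fun q => u (a q.1) q.2}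
    refine ⟨θ.relabel fun q => (q.1, e q.2), ?_, fun a => ?_⟩
    · exact fun hq => (hθ fun i => hφ i hq).relabel _
    · rw [Formula.realize_relabel]
      have h1 : ((fun p : Fin r × Fin m => u (a p.1) (e.symm p.2)) ∘
          fun q : Fin r × J => (q.1, e q.2)) = fun q => u (a q.1) q.2 := by
        funext q
        simp
      rw [h1, hr, Set.mem_ofPred_eq]
      constructor
      · intro ha
        exact ⟨a, ha, rfl⟩
      · rintro ⟨b, hb, hab⟩
        refine hd b a (fun i => ?_) hb
        exact iff_of_eq (congrFun hab i).symm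

/-- A criterion for `Codes`: every relation is determined by the truth values of finitely many
quantifier-free formulas. -/
theorem codes_of {L₁ L₂ : FirstOrder.Language.{0, 0}} {A₁ A₂ : Type} [L₁.Structure A₁]
    [L₂.Structure A₂] {J : Type} [Finite J] [Nonempty J] (u : A₁ → J → A₂)
    (hu : Function.Injective u)
    (h : ∀ (r : ℕ) (R : L₁.Relations r), ∃ (ι : Type) (_ : Finite ι)
      (φ : ι → L₂.Formula (Fin r × J)), (∀ i, (φ i).IsQF) ∧ ∀ a a' : Fin r → A₁,
        (∀ i, ((φ i).Realize fun p => u (a p.1) p.2) ↔ (φ i).Realize fun p => u (a' p.1) p.2) →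
          RelMap R a → RelMap R a') : Codes L₁ L₂ A₁ A₂ := by
  refine codesG_true.1 (codesG_of u hu fun r R => ?_)
  obtain ⟨ι, hι, φ, hφ, hd⟩ := h r R
  exact ⟨ι, hι, φ, fun i _ => hφ i, hd⟩

end Pool.Agent.Lib.MP_62cf67_lc
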