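import Pool.Agent.Lib.MP_62cf67_lc.Array
import Pool.Agent.Lib.MP_62cf67_lc.QF

/-!
# Coding hypergraphs in a class that is free in some symbols

From two structures `s₀`, `s₁` on `r` points which agree on proper subsets and outside `F`, an
`r`-uniform hypergraph `H` and an array `α : H × Fin r → A` for `s₀` we build a structure on
`H × Fin r`: the base relations are those of `A`, the transversals get the relations of `F` of `s₁`
over edges and of `s₀` over non-edges, and there are no other relations of `F`.
-/

namespace Pool.Agent.Lib.MP_62cf67_lc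

open FirstOrder FirstOrder.Language FirstOrder.Language.Structure CategoryTheory Set

open scoped FirstOrder

variable {L : FirstOrder.Language.{0, 0}} [L.IsRelational]

/-- The tuple lies over an edge of the hypergraph. -/
def Over {r : ℕ} {H : Type} [(edgeLanguage r).Structure H] {k : ℕ} (t : Fin k → H × Fin r) :
    Prop :=
  ∃ w : Fin r → H, IsEdge r w ∧ ∀ a, (t a).1 = w (t a).2

/-- The structure on `H × Fin r`. -/
@[instance_reducible]
def blow {r : ℕ} (F : ∀ n, Set (L.Relations n)) (H : Type) [(edgeLanguage r).Structure H]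
    (s₀ s₁ : L.Structure (Fin r)) {A : Type} [L.Structure A] (α : H × Fin r → A) :
    L.Structure (H × Fin r) where
  funMap := fun f => isEmptyElim f
  RelMap := fun R t => (R ∈ F _ ∧ (∀ a b, (t a).2 = (t b).2 ↔ (t a).1 = (t b).1) ∧
    ((Over t ∧ s₁.RelMap R fun a => (t a).2) ∨ (¬ Over t ∧ s₀.RelMap R fun a => (t a).2))) ∨
    (R ∉ F _ ∧ RelMap R fun a => α (t a))

/-- The structure pulled back along a map. -/
@[instance_reducible]
def pull {V A : Type} [L.Structure A] (f : V → A) : L.Structure V where
  funMap := fun f => isEmptyElim f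
  RelMap := fun R x => RelMap R fun i => f (x i)

theorem pull_mem {V A : Type} [L.Structure A] [Finite V] (f : V → A)
    (hf : Function.Injective f) : (⟨V, pull f⟩ : Bundled.{0} L.Structure) ∈ L.age A := by
  let _ : L.Structure V := pull f
  exact (mem_age_iff V).2 ⟨‹_›, ⟨toEmb f hf fun _ _ _ => Iff.rfl⟩⟩

theorem age_blow {K : Set (Bundled.{0} L.Structure)} (hK : Hereditary K)
    {F : ∀ n, Set (L.Relations n)} (hF : FreeIn K F) {r : ℕ} (H : Type)
    [(edgeLanguage r).Structure H]
    (s₀ s₁ : L.Structure (Fin r)) (h₀ : Bundled.mk (Fin r) s₀ ∈ K)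
    (h₁ : Bundled.mk (Fin r) s₁ ∈ K)
    (hagree : ∀ (k : ℕ) (R : L.Relations k) (x : Fin k → Fin r),
      R ∉ F k ∨ ¬ Function.Surjective x → (s₀.RelMap R x ↔ s₁.RelMap R x))
    {A : Type} [L.Structure A] (hage : L.age A = K) (α : H × Fin r → A)
    (hα : Function.Injective α)
    (hα' : ∀ (w : Fin r → H) (k : ℕ) (R : L.Relations k) (x : Fin k → Fin r),
        RelMap R (fun i => α (w (x i), x i)) ↔ s₀.RelMap R x) :
    ∀ (n : ℕ) (N : Type) (sN : L.Structure N) (_ : Finite N)
      (_ : @Language.Embedding L N (H × Fin r) sN (blow F H s₀ s₁ α)), Nat.card N = n →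
      Bundled.mk N sN ∈ K := by
  classical
  intro n
  induction n using Nat.strong_induction_on with
  | _ n ih =>
  intro N sN hN e hcard
  let sM : L.Structure (H × Fin r) := blow F H s₀ s₁ α
  have hrelF : ∀ (k : ℕ) (R : L.Relations k) (t : Fin k → N), R ∈ F k → (RelMap R t ↔
      ((∀ a b, (e (t a)).2 = (e (t b)).2 ↔ (e (t a)).1 = (e (t b)).1) ∧
      ((Over (fun a => e (t a)) ∧ s₁.RelMap R fun a => (e (t a)).2) ∨
        (¬ Over (fun a => e (t a)) ∧ s₀.RelMap R fun a => (e (t a)).2)))) := by
    intro k R t hR
    rw [← e.map_rel R t]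
    constructor
    · rintro (h | h)
      · exact h.2
      · exact absurd hR h.1
    · exact fun h => Or.inl ⟨hR, h⟩
  have hrelB : ∀ (k : ℕ) (R : L.Relations k) (t : Fin k → N), R ∉ F k → (RelMap R t ↔
      RelMap R fun a => α (e (t a))) := by
    intro k R t hR
    rw [← e.map_rel R t]
    constructor
    · rintro (h | h)
      · exact absurd h.1 hR
      · exact h.2
    · exact fun h => Or.inr ⟨hR, h⟩
  by_cases hall : ∀ x y : N, x ≠ y → ∃ (k : ℕ) (R : L.Relations k) (t : Fin k → N),
      R ∈ F k ∧ RelMap R t ∧ (∃ i, t i = x) ∧ ∃ j, t j = y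
  · -- all pairs are related: a partial transversal
    have hinj2 : Function.Injective fun x : N => (e x).2 := by
      intro x y hxy
      by_contra hne
      obtain ⟨k, R, t, hRF, hR, ⟨i, rfl⟩, ⟨j, rfl⟩⟩ := hall x y hne
      have h := ((hrelF k R t hRF).1 hR).1 i j
      exact hne (e.injective (Prod.ext (h.1 hxy) hxy))
    have hinj1 : Function.Injective fun x : N => (e x).1 := by
      intro x y hxy
      by_contra hne
      obtain ⟨k, R, t, hRF, hR, ⟨i, rfl⟩, ⟨j, rfl⟩⟩ := hall x y hne
      have h := ((hrelF k R t hRF).1 hR).1 i j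
      exact hne (e.injective (Prod.ext hxy (h.2 hxy)))
    have hPT : ∀ x y : N, (e x).2 = (e y).2 ↔ (e x).1 = (e y).1 := by
      intro x y
      constructor
      · intro h
        rw [hinj2 h]
      · intro h
        rw [hinj1 h]
    -- base relations are those of `s₀`
    have hbase : ∀ (k : ℕ) (R : L.Relations k) (t : Fin k → N), R ∉ F k →
        (RelMap R t ↔ s₀.RelMap R fun i => (e (t i)).2) := by
      intro k R t hR
      rw [hrelB k R t hR]
      rcases isEmpty_or_nonempty N with hNe | ⟨⟨x₁⟩⟩
      · have h1 : (fun a => α (e (t a))) = fun i => α ((e (t i)).1, (e (t i)).2) := rfl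
        rcases isEmpty_or_nonempty (Fin r → H) with hw | ⟨⟨w⟩⟩
        · -- no choice function: `k = 0` and both sides are the nullary value
          rcases Nat.eq_zero_or_pos r with hr | hr
          · subst hr
            exact (hw.false (fun i => i.elim0)).elim
          · have hHe : IsEmpty H := ⟨fun v => hw.false fun _ => v⟩
            have hk : IsEmpty (Fin k) := ⟨fun i => hNe.false (t i)⟩
            obtain ⟨ε⟩ : Nonempty (@Language.Embedding L (Fin r) A s₀ _) := by
              rw [← hage] at h₀
              exact h₀.2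
            have h2 := @Language.Embedding.map_rel' L (Fin r) A s₀ _ ε k R
              (fun i : Fin k => (e (t i)).2)
            have h3 : (fun a => α (e (t a))) = ε ∘ fun i : Fin k => (e (t i)).2 := by
              funext i
              exact hk.elim i
            rw [h3]
            exact h2
        · have hk : IsEmpty (Fin k) := ⟨fun i => hNe.false (t i)⟩
          have h3 : (fun a => α (e (t a))) = fun i => α (w ((e (t i)).2), (e (t i)).2) := by
            funext i
            exact hk.elim i
          rw [h3]
          exact hα' w k R _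
      · let w : Fin r → H := fun j => if h : ∃ x : N, (e x).2 = j then (e h.choose).1
          else (e x₁).1
        have hw : ∀ x : N, w (e x).2 = (e x).1 := by
          intro x
          have hex : ∃ x' : N, (e x').2 = (e x).2 := ⟨x, rfl⟩
          have h1 : hex.choose = x := hinj2 hex.choose_spec
          simp only [w, hex, dif_pos]
          rw [h1]
        have h3 : (fun a => α (e (t a))) = fun i => α (w ((e (t i)).2), (e (t i)).2) := by
          funext i
          rw [hw]
        rw [h3]
        exact hα' w k R _
    by_cases hw : ∃ w : Fin r → H, IsEdge r w ∧ ∀ x : N, (e x).1 = w (e x).2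
    · obtain ⟨w, hwe, hwx⟩ := hw
      refine hK _ h₁ ⟨Structure.fg_iff_finite.2 hN, ⟨?_⟩⟩
      refine @toEmb L _ N (Fin r) _ s₁ (fun x => (e x).2) hinj2 ?_
      intro k R t
      by_cases hRF : R ∈ F k
      · rw [hrelF k R t hRF]
        have hov : Over (fun a => e (t a)) := ⟨w, hwe, fun a => hwx _⟩
        constructor
        · intro h
          exact ⟨fun a b => hPT _ _, Or.inl ⟨hov, h⟩⟩
        · rintro ⟨-, h | h⟩
          · exact h.2
          · exact absurd hov h.1
      · rw [hbase k R t hRF, hagree k R _ (Or.inl hRF)]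
        rfl
    · refine hK _ h₀ ⟨Structure.fg_iff_finite.2 hN, ⟨?_⟩⟩
      refine @toEmb L _ N (Fin r) _ s₀ (fun x => (e x).2) hinj2 ?_
      intro k R t
      by_cases hRF : R ∈ F k
      · rw [hrelF k R t hRF]
        have hkey : Over (fun a => e (t a)) → (s₀.RelMap R (fun a => (e (t a)).2) ↔
            s₁.RelMap R fun a => (e (t a)).2) := by
          rintro ⟨w, hwe, hwt⟩
          refine hagree k R _ (Or.inr fun hsurj => hw ⟨w, hwe, fun x => ?_⟩)
          obtain ⟨a, ha⟩ := hsurj (e x).2
          have hx : t a = x := hinj2 ha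
          rw [← hx]
          exact hwt a
        constructor
        · intro h
          refine ⟨fun a b => hPT _ _, ?_⟩
          by_cases hov : Over (fun a => e (t a))
          · exact Or.inl ⟨hov, (hkey hov).1 h⟩
          · exact Or.inr ⟨hov, h⟩
        · rintro ⟨-, h | h⟩
          · exact (hkey h.1).2 h.2
          · exact h.2
      · rw [hbase k R t hRF]
        rfl
  · -- two unrelated points
    push Not at hall
    obtain ⟨x, y, hxy, hno⟩ := hall
    have hlt : ∀ z : N, Nat.card (sub (L := L) ({z}ᶜ : Set N)) < n := by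
      intro z
      have h1 : Nat.card (sub (L := L) ({z}ᶜ : Set N)) = Nat.card (({z}ᶜ : Set N)) := rfl
      have hpos : 0 < Nat.card N := @Nat.card_pos N ⟨z⟩ hN
      rw [h1, ← hcard, Nat.card_coe_set_eq, Set.ncard_compl, Set.ncard_singleton]
      omega
    have hsub : ∀ z : N, subB L ({z}ᶜ : Set N) ∈ K := by
      intro z
      exact ih _ (hlt z) _ _ (inferInstanceAs (Finite ({z}ᶜ : Set N)))
        (e.comp (Substructure.subtype _)) rfl
    refine hF N sN hN {x}ᶜ {y}ᶜ ?_ ?_ (hsub x) (hsub y) ?_
    · ext z
      simp only [mem_union, mem_compl_iff, mem_singleton_iff, mem_univ, iff_true]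
      by_contra hcon
      push Not at hcon
      exact hxy (hcon.1.symm.trans hcon.2)
    · intro k R t hRF hR
      by_contra hcon
      simp only [mem_compl_iff, mem_singleton_iff] at hcon
      push Not at hcon
      obtain ⟨⟨i, hi⟩, ⟨j, hj⟩⟩ := hcon
      exact hno k R t hRF hR ⟨i, hi⟩ j hj
    · refine ⟨pull fun x => α (e x), ?_, fun k R t hR => ?_⟩
      · rw [← hage]
        exact pull_mem _ (hα.comp e.injective)
      · exact (hrelB k R t hR).symm

/-- If a class splits in `F` at `r ≥ 1`, then the generic limit of the `r`-uniform hypergraphs is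
coded in the limit of the class. -/
theorem codes_hypergraph {K : Set (Bundled.{0} L.Structure)} (hK : Hereditary K)
    {F : ∀ n, Set (L.Relations n)} (hF : FreeIn K F) {r : ℕ} (hr : 0 < r)
    (hs : SplitsIn K F r) {A : Type} [L.Structure A]
    (hA : L.IsUltrahomogeneous A) (hage : L.age A = K) (hd : DisjointAmalgamation K)
    {H : Type} [Countable H]
    [(edgeLanguage r).Structure H] (hH : (edgeLanguage r).age H ⊆ Hypergraphs r) :
    Codes (edgeLanguage r) L H A := by
  classical
  obtain ⟨s₀, s₁, h₀, h₁, hagree, k₀, R₀, x₀, hdiff⟩ := hs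
  have hsurj : Function.Surjective x₀ := by
    by_contra hcon
    exact hdiff (hagree _ _ _ (Or.inr hcon))
  have hRF : R₀ ∈ F k₀ := by
    by_contra hcon
    exact hdiff (hagree _ _ _ (Or.inl hcon))
  obtain ⟨α, hα, hα'⟩ := exists_array hA (by rw [hage]; exact hd) hr s₀ (by rw [hage]; exact h₀)
  obtain ⟨ι, hι⟩ := Countable.exists_injective_nat H
  let β : H × Fin r → A := fun p => α (ι p.1, p.2)
  have hβ : Function.Injective β := by
    rintro ⟨v, j⟩ ⟨v', j'⟩ h
    have h1 := hα h
    have h2 : ι v = ι v' := congrArg Prod.fst h1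
    have h3 : j = j' := congrArg Prod.snd h1
    rw [hι h2, h3]
  have hβ' : ∀ (w : Fin r → H) (k : ℕ) (R : L.Relations k) (x : Fin k → Fin r),
      RelMap R (fun i => β (w (x i), x i)) ↔ s₀.RelMap R x :=
    fun w k R x => hα' (fun j => ι (w j)) k R x
  let sM : L.Structure (H × Fin r) := blow F H s₀ s₁ β
  have hageM : L.age (H × Fin r) ⊆ L.age A := by
    rw [hage]
    rintro ⟨N, sN⟩ ⟨hfg, ⟨e⟩⟩
    exact age_blow hK hF H s₀ s₁ h₀ h₁ hagree hage β hβ hβ' _ N sN
      (Structure.fg_iff_finite.1 hfg) e rfl
  obtain ⟨ε⟩ := exists_embedding hA hageM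
  have : Nonempty (Fin r) := ⟨⟨0, hr⟩⟩
  -- edges of `H` are injective
  have hedge : ∀ w : Fin r → H, IsEdge r w → Function.Injective w := by
    intro w hw
    have hmem : (subB (edgeLanguage r) (range w)) ∈ Hypergraphs r :=
      hH ⟨Structure.fg_iff_finite.2 (inferInstanceAs (Finite (range w))),
        ⟨Substructure.subtype _⟩⟩
    have hw' : IsEdge r (fun i => (⟨w i, mem_range_self i⟩ : sub (L := edgeLanguage r)
        (range w))) := hw
    have h2 := (hmem.2 _ hw').1
    intro a b hab
    apply h2
    exact Subtype.ext hab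
  refine codes_of (J := Fin r) (fun v j => ε (v, j)) ?_ ?_
  · intro v v' h
    have := ε.injective (congrFun h ⟨0, hr⟩)
    exact congrArg Prod.fst this
  · intro n R
    cases R with
    | edge =>
      refine ⟨(Fin r × Fin r) ⊕ Unit, inferInstance,
        Sum.elim (fun p => eqF (p.1, ⟨0, hr⟩) (p.2, ⟨0, hr⟩))
          (fun _ => relF R₀ fun j => (x₀ j, x₀ j)), ?_, ?_⟩
      · rintro (p | _)
        · exact eqF_isQF _ _
        · exact relF_isQF _ _
      · intro a a' hpat ha
        have ha1 : IsEdge r a := ha
        have hinj := hedge a ha1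
        have heq : ∀ i j, a i = a j ↔ a' i = a' j := by
          intro i j
          have h := hpat (Sum.inl (i, j))
          simp only [Sum.elim_inl, realize_eqF] at h
          constructor
          · intro h1
            have h2 := h.1 (by rw [h1])
            exact congrArg Prod.fst (ε.injective h2)
          · intro h1
            have h2 := h.2 (by rw [h1])
            exact congrArg Prod.fst (ε.injective h2)
        have hinj' : Function.Injective a' := fun i j hij => hinj ((heq i j).2 hij)
        have hblow : ∀ b : Fin r → H, Function.Injective b →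
            ((relF R₀ fun j => (x₀ j, x₀ j)).Realize
              (fun p : Fin r × Fin r => ε (b p.1, p.2)) ↔
            ((IsEdge r b ∧ s₁.RelMap R₀ x₀) ∨ (¬ IsEdge r b ∧ s₀.RelMap R₀ x₀))) := by
          intro b hb
          rw [realize_relF]
          have h3 : (fun i => ε (b (x₀ i), x₀ i)) = ε ∘ fun i => (b (x₀ i), x₀ i) := rfl
          rw [h3, ε.map_rel]
          change ((R₀ ∈ F k₀ ∧ (∀ c d, x₀ c = x₀ d ↔ b (x₀ c) = b (x₀ d)) ∧
            ((Over (fun i => (b (x₀ i), x₀ i)) ∧ s₁.RelMap R₀ fun i => x₀ i) ∨
              (¬ Over (fun i => (b (x₀ i), x₀ i)) ∧ s₀.RelMap R₀ fun i => x₀ i))) ∨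
            (R₀ ∉ F k₀ ∧ _)) ↔ _
          have hov : Over (fun i => (b (x₀ i), x₀ i)) ↔ IsEdge r b := by
            constructor
            · rintro ⟨w, hw, hwt⟩
              have : b = w := by
                funext i
                obtain ⟨j, rfl⟩ := hsurj i
                exact hwt j
              rw [this]
              exact hw
            · intro h
              exact ⟨b, h, fun _ => rfl⟩
          rw [hov]
          constructor
          · rintro (h | h)
            · exact h.2.2
            · exact absurd hRF h.1
          · intro h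
            exact Or.inl ⟨hRF, fun c d => ⟨fun h => by rw [h], fun h => hb h⟩, h⟩
        have h4 := hpat (Sum.inr ())
        simp only [Sum.elim_inr] at h4
        rw [hblow a hinj, hblow a' hinj'] at h4
        change IsEdge r a'
        by_contra hne
        simp only [ha1, hne, true_and, not_true_eq_false, false_and, or_false, false_or,
          not_false_eq_true] at h4
        exact hdiff h4.symm

end Pool.Agent.Lib.MP_62cf67_lc
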