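import Mathlib

/-!
# Definitions for MP_62cf67_lc

A Fraïssé class `K` in a finite relational language is given together with its generic limit `A`
(`IsFraisseLimit K A` of Mathlib).

* `Codes`: the relation between generic limits that defines the quasi-order of the problem;
* `DisjointAmalgamation`, `FreeAmalgamation`: disjoint and free amalgamation;
* `FreeIn K F`: the class `K` is free in the set `F` of relation symbols;
* `SplitsIn K F r`: two structures of `K` on `r` points agree on all proper subsets and in all
  symbols outside `F`, but differ;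
* `Hypergraphs r`: the class of finite `r`-uniform hypergraphs;
* `Indecomposable`: indecomposability of a class, in terms of factorizations.
-/

namespace Pool.Agent.Lib.MP_62cf67_lc

open FirstOrder FirstOrder.Language FirstOrder.Language.Structure CategoryTheory

open scoped FirstOrder

/-- `A₁` is coded in `A₂`: there are `0 < m`, an injection `u` from `A₁` to the `m`-tuples of `A₂`
and, for each relation symbol `R` of `L₁`, a quantifier-free formula `θ` of `L₂` with
`A₁ ⊨ R(a₀, …)` iff `A₂ ⊨ θ(u a₀, …)` for all `a₀, …` in `A₁`. -/
def Codes (L₁ L₂ : FirstOrder.Language.{0, 0}) (A₁ A₂ : Type) [L₁.Structure A₁]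
    [L₂.Structure A₂] : Prop :=
  ∃ m : ℕ, 0 < m ∧ ∃ u : A₁ → Fin m → A₂, Function.Injective u ∧
    ∀ (r : ℕ) (R : L₁.Relations r), ∃ θ : L₂.Formula (Fin r × Fin m), θ.IsQF ∧
      ∀ a : Fin r → A₁, RelMap R a ↔ θ.Realize fun p => u (a p.1) p.2

/-- `A₁` is coded in the arbitrary structure `M`: as in `Codes`, but the formulas `θ` may have
quantifiers. (For a complete theory `T` that eliminates imaginaries, `T` is in the dividing line of
the class with limit `A₁` iff `A₁` is coded in this sense in some model of `T`.) -/
def CodedIn (L₁ L₂ : FirstOrder.Language.{0, 0}) (A₁ M : Type) [L₁.Structure A₁]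
    [L₂.Structure M] : Prop :=
  ∃ m : ℕ, 0 < m ∧ ∃ u : A₁ → Fin m → M, Function.Injective u ∧
    ∀ (r : ℕ) (R : L₁.Relations r), ∃ θ : L₂.Formula (Fin r × Fin m),
      ∀ a : Fin r → A₁, RelMap R a ↔ θ.Realize fun p => u (a p.1) p.2

/-- Disjoint amalgamation (equivalently: the theory of the generic limit is algebraically
trivial): structures `N`, `P` of the class with a common substructure `M` in the class are jointly
embedded in a member `Q` of the class such that the images of `N` and `P` meet exactly in the
image of `M`. -/
def DisjointAmalgamation {L : FirstOrder.Language.{0, 0}} (K : Set (Bundled.{0} L.Structure)) :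
    Prop :=
  ∀ (M N P : Bundled.{0} L.Structure) (f : M ↪[L] N) (g : M ↪[L] P), M ∈ K → N ∈ K → P ∈ K →
    ∃ (Q : Bundled.{0} L.Structure) (f' : N ↪[L] Q) (g' : P ↪[L] Q), Q ∈ K ∧
      (∀ m, f' (f m) = g' (g m)) ∧ ∀ n p, f' n = g' p → ∃ m, f m = n ∧ g m = p

/-- Free amalgamation: structures `N`, `P` of the class with a common substructure `M` in the class
are jointly embedded in a member `Q` of the class which is covered by the images of `N` and `P`,
these images meet exactly in the image of `M`, and every tuple in a relation of `Q` is contained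
in the image of `N` or in the image of `P`. -/
def FreeAmalgamation {L : FirstOrder.Language.{0, 0}} (K : Set (Bundled.{0} L.Structure)) : Prop :=
  ∀ (M N P : Bundled.{0} L.Structure) (f : M ↪[L] N) (g : M ↪[L] P), M ∈ K → N ∈ K → P ∈ K →
    ∃ (Q : Bundled.{0} L.Structure) (f' : N ↪[L] Q) (g' : P ↪[L] Q), Q ∈ K ∧
      (∀ m, f' (f m) = g' (g m)) ∧
      (∀ q : Q, (∃ n, f' n = q) ∨ ∃ p, g' p = q) ∧
      (∀ n p, f' n = g' p → ∃ m, f m = n ∧ g m = p) ∧
      ∀ (k : ℕ) (R : L.Relations k) (x : Fin k → Q), RelMap R x →
        (∀ i, ∃ n, f' n = x i) ∨ ∀ i, ∃ p, g' p = x i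

section relational

variable {L : FirstOrder.Language.{0, 0}} [L.IsRelational]

/-- The substructure of a relational structure on a given set of points. -/
def sub {A : Type} [L.Structure A] (s : Set A) : L.Substructure A :=
  ⟨s, fun f => isEmptyElim f⟩

variable (L) in
/-- The substructure on a set of points, as a bundled structure. -/
abbrev subB {A : Type} [L.Structure A] (s : Set A) : Bundled.{0} L.Structure :=
  ⟨sub (L := L) s, inferInstance⟩

/-- The class `K` is free in the symbols of `F`: a finite structure `S` is in `K` if it is the
union of two substructures in `K` such that every tuple in a relation of `F` is contained in one of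
them, and if some member of `K` on the same set has the same relations outside `F`. -/
def FreeIn (K : Set (Bundled.{0} L.Structure)) (F : ∀ n, Set (L.Relations n)) : Prop :=
  ∀ (S : Type) (σ : L.Structure S) (_ : Finite S) (s t : Set S), s ∪ t = Set.univ →
    (∀ (k : ℕ) (R : L.Relations k) (x : Fin k → S), R ∈ F k → σ.RelMap R x →
      (∀ i, x i ∈ s) ∨ ∀ i, x i ∈ t) →
    subB L s ∈ K → subB L t ∈ K →
    (∃ τ : L.Structure S, Bundled.mk S τ ∈ K ∧
      ∀ (k : ℕ) (R : L.Relations k) (x : Fin k → S), R ∉ F k →
        (τ.RelMap R x ↔ σ.RelMap R x)) →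
    Bundled.mk S σ ∈ K

end relational

/-- There are two members of `K` on the same `r` points that agree on all proper subsets (that is,
on all tuples that miss a point) and in all symbols outside `F`, and are different. -/
def SplitsIn {L : FirstOrder.Language.{0, 0}} (K : Set (Bundled.{0} L.Structure))
    (F : ∀ n, Set (L.Relations n)) (r : ℕ) : Prop :=
  ∃ s₀ s₁ : L.Structure (Fin r), Bundled.mk (Fin r) s₀ ∈ K ∧ Bundled.mk (Fin r) s₁ ∈ K ∧
    (∀ (k : ℕ) (R : L.Relations k) (x : Fin k → Fin r), R ∉ F k ∨ ¬ Function.Surjective x →
      (s₀.RelMap R x ↔ s₁.RelMap R x)) ∧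
    ∃ (k : ℕ) (R : L.Relations k) (x : Fin k → Fin r), ¬ (s₀.RelMap R x ↔ s₁.RelMap R x)

/-- The relation symbols of the language with one relation symbol, of arity `r`. -/
inductive EdgeSymbol (r : ℕ) : ℕ → Type
  | edge : EdgeSymbol r r

/-- The language with one relation symbol, of arity `r`. -/
def edgeLanguage (r : ℕ) : FirstOrder.Language.{0, 0} := ⟨fun _ => Empty, EdgeSymbol r⟩

/-- The edge relation of a structure for `edgeLanguage r`. -/
def IsEdge (r : ℕ) {V : Type} [(edgeLanguage r).Structure V] (x : Fin r → V) : Prop :=
  RelMap (L := edgeLanguage r) (EdgeSymbol.edge : (edgeLanguage r).Relations r) x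

instance (r : ℕ) : (edgeLanguage r).IsRelational := fun _ => inferInstanceAs (IsEmpty Empty)

/-- The class of finite `r`-uniform hypergraphs: the edge relation is symmetric and holds only for
tuples of distinct points. -/
def Hypergraphs (r : ℕ) : Set (Bundled.{0} (edgeLanguage r).Structure) :=
  {S | Finite S ∧ ∀ x : Fin r → S, IsEdge r x →
    Function.Injective x ∧ ∀ σ : Equiv.Perm (Fin r), IsEdge r (x ∘ σ)}

section reduct

variable {L : FirstOrder.Language.{0, 0}} (F : ∀ n, Set (L.Relations n))

/-- The language of the relation symbols of `L` that are not in `F`. -/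
def baseLanguage : FirstOrder.Language.{0, 0} :=
  ⟨fun _ => Empty, fun n => {R : L.Relations n // R ∉ F n}⟩

instance : (baseLanguage F).IsRelational := fun _ => inferInstanceAs (IsEmpty Empty)

/-- The reduct of an `L`-structure to the relation symbols that are not in `F`. -/
instance baseStructure (A : Type) [L.Structure A] : (baseLanguage F).Structure A where
  funMap := fun f => isEmptyElim f
  RelMap := fun R x => RelMap R.1 x

end reduct

/-- The disjoint union of the (relational) languages `Ls i`; if `E` is true, then a binary symbol
for the equality of the coordinates in `As i` is added for each `i`. -/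
def prodLanguage (E : Prop) {n : ℕ} (Ls : Fin n → FirstOrder.Language.{0, 0}) :
    FirstOrder.Language.{0, 0} :=
  ⟨fun _ => Empty, fun k => (Σ i, (Ls i).Relations k) ⊕ {_i : Fin n // k = 2 ∧ E}⟩

instance (E : Prop) {n : ℕ} (Ls : Fin n → FirstOrder.Language.{0, 0}) :
    (prodLanguage E Ls).IsRelational :=
  fun _ => inferInstanceAs (IsEmpty Empty)

/-- The product of structures `As i`: the symbols of `Ls i` are interpreted by the coordinates in
`As i`. -/
instance prodStructure (E : Prop) {n : ℕ} (Ls : Fin n → FirstOrder.Language.{0, 0})
    (As : Fin n → Type) [∀ i, (Ls i).Structure (As i)] :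
    (prodLanguage E Ls).Structure (∀ i, As i) where
  funMap := fun f => isEmptyElim f
  RelMap := fun R x => match R with
    | Sum.inl R => RelMap R.2 fun j => x j R.1
    | Sum.inr i => ∀ j j', x j i.1 = x j' i.1

/-- The tuples `a` and `a'` have the same quantifier-free type. -/
def SameQF (L : FirstOrder.Language.{0, 0}) {A : Type} [L.Structure A] {k : ℕ}
    (a a' : Fin k → A) : Prop :=
  ∀ φ : L.Formula (Fin k), φ.IsQF → (φ.Realize a ↔ φ.Realize a')

/-- The tuples `a` and `a'` have the same type. -/
def SameType (L : FirstOrder.Language.{0, 0}) {A : Type} [L.Structure A] {k : ℕ}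
    (a a' : Fin k → A) : Prop :=
  ∀ φ : L.Formula (Fin k), φ.Realize a ↔ φ.Realize a'

/-- Indecomposability of the Fraïssé class with generic limit `A`: whenever `As i` (`i < n`,
`n > 1`) are the generic limits of algebraically trivial Fraïssé classes in finite relational
languages `Ls i` and `u` is an injection of `A` into the product of the `As i` such that tuples of
`A` have the same quantifier-free type iff their images have the same type in the product, then `A`
is coded in some `As i`. For `E := False` the language of the product is the disjoint union of the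
languages `Ls i`, for `E := True` it also has the equalities of the coordinates. -/
def Indecomposable (E : Prop) (L : FirstOrder.Language.{0, 0}) (A : Type) [L.Structure A] :
    Prop :=
  ∀ (n : ℕ) (Ls : Fin n → FirstOrder.Language.{0, 0}) (As : Fin n → Type)
    [∀ i, (Ls i).IsRelational] [∀ i, Finite (Σ k, (Ls i).Relations k)]
    [∀ i, (Ls i).Structure (As i)] [∀ i, Countable (As i)] [∀ i, Infinite (As i)]
    (u : A → ∀ i, As i), 1 < n →
    (∀ i, (Ls i).IsUltrahomogeneous (As i)) →
    (∀ i, DisjointAmalgamation ((Ls i).age (As i))) →
    Function.Injective u →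
    (∀ (k : ℕ) (a a' : Fin k → A), SameQF L a a' ↔
      SameType (prodLanguage E Ls) (fun j => u (a j)) (fun j => u (a' j))) →
    ∃ i, Codes L (Ls i) A (As i)

end Pool.Agent.Lib.MP_62cf67_lc
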