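import Pool.Agent.Lib.MP_62cf67_lc.Blow

/-!
# Classes that do not split above `r` are determined by the types of `r`-tuples
-/

namespace Pool.Agent.Lib.MP_62cf67_lc

open FirstOrder FirstOrder.Language FirstOrder.Language.Structure CategoryTheory Set

open scoped FirstOrder

variable {L : FirstOrder.Language.{0, 0}} [L.IsRelational]

theorem agree_of_small {K : Set (Bundled.{0} L.Structure)} {F : ∀ n, Set (L.Relations n)}
    {r : ℕ} (hns : ∀ s, r < s → ¬ SplitsIn K F s) {A : Type} [L.Structure A]
    (hage : L.age A = K) {s : ℕ} (b b' : Fin s → A) (hb : Function.Injective b)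
    (hb' : Function.Injective b')
    (hbase : ∀ (k : ℕ) (R : L.Relations k) (x : Fin k → Fin s), R ∉ F k →
      (RelMap R (fun i => b (x i)) ↔ RelMap R fun i => b' (x i)))
    (hsmall : ∀ (k : ℕ) (R : L.Relations k) (x : Fin k → Fin s), R ∈ F k →
      (range x).ncard ≤ r → (RelMap R (fun i => b (x i)) ↔ RelMap R fun i => b' (x i))) :
    ∀ (q k : ℕ) (R : L.Relations k) (x : Fin k → Fin s), R ∈ F k → (range x).ncard = q →
      (RelMap R (fun i => b (x i)) ↔ RelMap R fun i => b' (x i)) := by
  intro q
  induction q using Nat.strong_induction_on with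
  | _ q ih =>
  intro k R x hR hq
  by_cases hle : q ≤ r
  · exact hsmall k R x hR (hq.trans_le hle)
  push Not at hle
  by_contra hdiff
  have hcard : Nat.card (range x) = q := by rw [Nat.card_coe_set_eq, hq]
  have e : range x ≃ Fin q := Finite.equivFinOfCardEq hcard
  let c : Fin q → Fin s := fun j => (e.symm j : range x)
  have hc : Function.Injective c := fun i j h => e.symm.injective (Subtype.ext h)
  let x' : Fin k → Fin q := fun i => e ⟨x i, mem_range_self i⟩
  have hx' : ∀ i, c (x' i) = x i := by
    intro i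
    simp only [c, x', Equiv.symm_apply_apply]
  refine hns q hle ⟨pull fun j => b (c j), pull fun j => b' (c j), ?_, ?_, ?_, ?_⟩
  · rw [← hage]; exact pull_mem _ (hb.comp hc)
  · rw [← hage]; exact pull_mem _ (hb'.comp hc)
  · intro k' R' y hy
    change RelMap R' (fun i => b (c (y i))) ↔ RelMap R' fun i => b' (c (y i))
    by_cases hR' : R' ∈ F k'
    · have hns' : ¬ Function.Surjective y := hy.resolve_left fun h => h hR'
      refine ih _ ?_ k' R' (fun i => c (y i)) hR' rfl
      have h1 : range (fun i => c (y i)) = c '' range y := by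
        rw [← range_comp]; rfl
      rw [h1, ncard_image_of_injective _ hc]
      have h2 : range y ≠ univ := fun h => hns' (range_eq_univ.1 h)
      have h3 : (range y).ncard < (univ : Set (Fin q)).ncard :=
        ncard_lt_ncard (ssubset_univ_iff.2 h2) (toFinite _)
      rwa [ncard_univ, Nat.card_eq_fintype_card, Fintype.card_fin] at h3
    · exact hbase k' R' (fun i => c (y i)) hR'
  · refine ⟨k, R, x', ?_⟩
    change ¬ (RelMap R (fun i => b (c (x' i))) ↔ RelMap R fun i => b' (c (x' i)))
    simp only [hx']
    exact hdiff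

variable (L) in
/-- Atomic facts about `r`-tuples. -/
abbrev Idx (r : ℕ) : Type := Σ p : (Σ n, L.Relations n), (Fin p.1 → Fin r)

instance [Finite (Σ n, L.Relations n)] (r : ℕ) : Finite (Idx L r) := inferInstance

/-- The `F`-type of an `r`-tuple. -/
def typ (F : ∀ n, Set (L.Relations n)) {r : ℕ} {A : Type} [L.Structure A] (f : Fin r → A) :
    Set (Idx L r) :=
  {p | p.1.2 ∈ F p.1.1 ∧ RelMap p.1.2 fun i => f (p.2 i)}

theorem rel_of_typ {K : Set (Bundled.{0} L.Structure)} {F : ∀ n, Set (L.Relations n)}
    {r : ℕ} (hns : ∀ s, r < s → ¬ SplitsIn K F s) {A : Type} [L.Structure A]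
    (hage : L.age A = K) {n : ℕ} (t t' : Fin n → A) (heq : ∀ i j, t i = t j ↔ t' i = t' j)
    (hbase : ∀ (k : ℕ) (R : L.Relations k) (y : Fin k → Fin n), R ∉ F k →
      (RelMap R (fun i => t (y i)) ↔ RelMap R fun i => t' (y i)))
    (htyp : ∀ g : Fin r → Fin n, typ F (fun i => t (g i)) = typ F fun i => t' (g i))
    (k : ℕ) (R : L.Relations k) (hR : R ∈ F k) (y : Fin k → Fin n) :
    RelMap R (fun i => t (y i)) ↔ RelMap R fun i => t' (y i) := by
  rcases Nat.eq_zero_or_pos n with hn | hn
  · subst hn
    have h1 : t = t' := by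
      funext i
      exact i.elim0
    rw [h1]
  obtain ⟨s, ⟨e⟩⟩ := Finite.exists_equiv_fin (range t)
  let π : Fin n → Fin s := fun i => e ⟨t i, mem_range_self i⟩
  have hex : ∀ j : Fin s, ∃ i, t i = (e.symm j : range t) := fun j => (e.symm j).2
  choose σ hσ using hex
  have hσπ : ∀ i, t (σ (π i)) = t i := by
    intro i
    rw [hσ]
    simp only [π, Equiv.symm_apply_apply]
  have hσπ' : ∀ i, t' (σ (π i)) = t' i := fun i => (heq _ _).1 (hσπ i)
  have hb : Function.Injective fun j => t (σ j) := by
    intro i j h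
    simp only [hσ] at h
    exact e.symm.injective (Subtype.ext h)
  have hb' : Function.Injective fun j => t' (σ j) := by
    intro i j h
    exact hb ((heq _ _).2 h)
  have hmain := agree_of_small hns hage (fun j => t (σ j)) (fun j => t' (σ j)) hb hb'
    (fun k R x hR => hbase k R (fun i => σ (x i)) hR) ?_ _ k R (fun i => π (y i)) hR rfl
  · simp only [hσπ, hσπ'] at hmain
    exact hmain
  · intro k R x hR hx
    have i₀ : Fin s := π ⟨0, hn⟩
    -- factor `x` through `Fin r`
    have hcard : Nat.card (range x) ≤ Nat.card (Fin r) := by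
      rw [Nat.card_coe_set_eq, Nat.card_eq_fintype_card, Fintype.card_fin]
      exact hx
    obtain ⟨ψ⟩ : Nonempty (range x ↪ Fin r) := by
      have := Fintype.ofFinite (range x)
      rw [Nat.card_eq_fintype_card, Nat.card_eq_fintype_card] at hcard
      exact Function.Embedding.nonempty_of_card_le hcard
    let h : Fin k → Fin r := fun i => ψ ⟨x i, mem_range_self i⟩
    classical
    let g₀ : Fin r → Fin s := fun j => if hj : ∃ z : range x, ψ z = j then (hj.choose : range x)
      else i₀
    have hg : ∀ i, g₀ (h i) = x i := by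
      intro i
      have hj : ∃ z : range x, ψ z = h i := ⟨⟨x i, mem_range_self i⟩, rfl⟩
      have h1 : hj.choose = ⟨x i, mem_range_self i⟩ := ψ.injective hj.choose_spec
      simp only [g₀, hj, dif_pos]
      rw [h1]
    have h2 := htyp fun j => σ (g₀ j)
    have h3 : (⟨⟨k, R⟩, h⟩ : Idx L r) ∈ typ F (fun i => t (σ (g₀ i))) ↔
        (⟨⟨k, R⟩, h⟩ : Idx L r) ∈ typ F fun i => t' (σ (g₀ i)) := by
      rw [h2]
    unfold typ at h3
    simp only [mem_ofPred_eq, hg, hR, true_and] at h3
    exact h3

end Pool.Agent.Lib.MP_62cf67_lc
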