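import Pool.Agent.Lib.MP_62cf67_lc.Defs

/-!
# Universality of ultrahomogeneous structures, and substructures of relational structures
-/

namespace Pool.Agent.Lib.MP_62cf67_lc

open FirstOrder FirstOrder.Language FirstOrder.Language.Structure CategoryTheory Set

open scoped FirstOrder

variable {L : FirstOrder.Language.{0, 0}}

/-- A countable structure whose age is contained in the age of an ultrahomogeneous structure
embeds into it. -/
theorem exists_embedding {A G : Type} [L.Structure A] [L.Structure G] [Countable G]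
    (hA : L.IsUltrahomogeneous A) (h : L.age G ⊆ L.age A) : Nonempty (G ↪[L] A) := by
  have hext : L.IsExtensionPair G A := by
    intro ⟨f, f_FG⟩ m
    let S := f.dom ⊔ Substructure.closure L {m}
    have S_FG : S.FG := f_FG.sup (Substructure.fg_closure_singleton _)
    have S_in : (⟨S, inferInstance⟩ : Bundled.{0} L.Structure) ∈ L.age A :=
      h ⟨(Substructure.fg_iff_structure_fg S).1 S_FG, ⟨Substructure.subtype _⟩⟩
    have nonempty_S_N : Nonempty (S ↪[L] A) := S_in.2
    let ⟨g, g_eq⟩ := hA.extend_embedding (f.dom.fg_iff_structure_fg.1 f_FG)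
      ((Substructure.subtype f.cod).comp f.toEquiv.toEmbedding)
      (Substructure.inclusion (le_sup_left : _ ≤ S))
    refine ⟨⟨⟨S, g.toHom.range, g.equivRange⟩, S_FG⟩,
      Substructure.subset_closure.trans (le_sup_right : _ ≤ S) (mem_singleton m),
      ⟨le_sup_left, ?_⟩⟩
    ext
    simp [S, g_eq]
  let S : L.Substructure G := ⊥
  have S_fg : FG L S := (Substructure.fg_iff_structure_fg _).1 Substructure.fg_bot
  obtain ⟨_, ⟨emb⟩⟩ : (⟨S, inferInstance⟩ : Bundled.{0} L.Structure) ∈ L.age A :=
    h ⟨S_fg, ⟨Substructure.subtype _⟩⟩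
  obtain ⟨f, -⟩ := embedding_from_cg Structure.cg_of_countable
    ⟨⟨S, emb.toHom.range, emb.equivRange⟩, (Substructure.fg_iff_structure_fg _).2 S_fg⟩ hext
  exact ⟨f⟩

variable [L.IsRelational]

theorem mem_sub {A : Type} [L.Structure A] (s : Set A) (a : A) : a ∈ sub (L := L) s ↔ a ∈ s :=
  Iff.rfl

theorem mem_age_iff {A : Type} [L.Structure A] (N : Type) [L.Structure N] :
    (⟨N, inferInstance⟩ : Bundled.{0} L.Structure) ∈ L.age A ↔
      Finite N ∧ Nonempty (N ↪[L] A) := by
  unfold age
  rw [Set.mem_ofPred_eq, Structure.fg_iff_finite]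

theorem subB_mem {K : Set (Bundled.{0} L.Structure)} {A : Type} [L.Structure A]
    (hage : L.age A = K) (s : Set A) (hs : s.Finite) : subB L s ∈ K := by
  rw [← hage]
  exact (mem_age_iff _).2 ⟨hs.to_subtype, ⟨Substructure.subtype _⟩⟩

/-- A map that is injective and preserves relations in both directions, as an embedding. -/
def toEmb {A B : Type} [L.Structure A] [L.Structure B] (f : A → B) (hf : Function.Injective f)
    (h : ∀ (k : ℕ) (R : L.Relations k) (x : Fin k → A), RelMap R (f ∘ x) ↔ RelMap R x) :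
    A ↪[L] B where
  toFun := f
  inj' := hf
  map_fun' := fun g => isEmptyElim g
  map_rel' := fun R x => h _ R x

@[simp]
theorem toEmb_apply {A B : Type} [L.Structure A] [L.Structure B] (f : A → B)
    (hf : Function.Injective f)
    (h : ∀ (k : ℕ) (R : L.Relations k) (x : Fin k → A), RelMap R (f ∘ x) ↔ RelMap R x) (a : A) :
    toEmb (L := L) f hf h a = f a := rfl

/-- A class with free amalgamation is free in all symbols. -/
theorem freeIn_of_freeAmalgamation {K : Set (Bundled.{0} L.Structure)} (hK : Hereditary K)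
    (hfree : FreeAmalgamation K) : FreeIn K (fun _ => univ) := by
  classical
  intro S σ hSf s t hst hF hs ht _
  have hle : sub (L := L) (s ∩ t) ≤ sub (L := L) s := fun a ha => ha.1
  have hle' : sub (L := L) (s ∩ t) ≤ sub (L := L) t := fun a ha => ha.2
  have hM : subB L (s ∩ t) ∈ K :=
    hK _ hs ⟨Structure.fg_iff_finite.2 (inferInstanceAs (Finite (s ∩ t : Set S))),
      ⟨Substructure.inclusion hle⟩⟩
  obtain ⟨Q, f', g', hQ, hcomm, -, hmeet, hrel⟩ := hfree _ _ _ (Substructure.inclusion hle)
    (Substructure.inclusion hle') hM hs ht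
  have hcov : ∀ a : S, a ∉ sub (L := L) s → a ∈ sub (L := L) t := by
    intro a ha
    have h1 : a ∈ s ∪ t := by rw [hst]; trivial
    exact h1.resolve_left ha
  let e : S → Q := fun a => if ha : a ∈ sub (L := L) s then f' ⟨a, ha⟩
    else g' ⟨a, hcov a ha⟩
  have he1 : ∀ a (ha : a ∈ sub (L := L) s), e a = f' ⟨a, ha⟩ := by
    intro a ha
    simp only [e, ha, dif_pos]
  have he2 : ∀ a (ha : a ∈ sub (L := L) t), e a = g' ⟨a, ha⟩ := by
    intro a ha
    by_cases h : a ∈ sub (L := L) s
    · rw [he1 a h]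
      exact hcomm ⟨a, ⟨h, ha⟩⟩
    · simp only [e, h, dif_neg, not_false_iff]
  have hmeet' : ∀ a (ha : a ∈ sub (L := L) s) b (hb : b ∈ sub (L := L) t),
      f' ⟨a, ha⟩ = g' ⟨b, hb⟩ → a = b ∧ b ∈ sub (L := L) s ∧ a ∈ sub (L := L) t := by
    intro a ha b hb h
    obtain ⟨m, hm1, hm2⟩ := hmeet _ _ h
    have h1 : (m : S) = a := congrArg Subtype.val hm1
    have h2 : (m : S) = b := congrArg Subtype.val hm2
    have h3 : a = b := h1.symm.trans h2
    refine ⟨h3, ?_, ?_⟩
    · rw [← h3]; exact ha
    · rw [h3]; exact hb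
  have hinj : Function.Injective e := by
    intro a b hab
    by_cases ha : a ∈ sub (L := L) s
    · by_cases hb : b ∈ sub (L := L) s
      · rw [he1 a ha, he1 b hb] at hab
        exact congrArg Subtype.val (f'.injective hab)
      · rw [he1 a ha, he2 b (hcov b hb)] at hab
        exact (hmeet' a ha b _ hab).1
    · by_cases hb : b ∈ sub (L := L) s
      · rw [he1 b hb, he2 a (hcov a ha)] at hab
        exact (hmeet' b hb a _ hab.symm).1.symm
      · rw [he2 a (hcov a ha), he2 b (hcov b hb)] at hab
        exact congrArg Subtype.val (g'.injective hab)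
  refine hK Q hQ ⟨Structure.fg_iff_finite.2 ‹_›, ⟨toEmb e hinj ?_⟩⟩
  intro k R x
  have hin : (∀ i, x i ∈ sub (L := L) s) → (RelMap R (e ∘ x) ↔ RelMap R x) := by
    intro h2
    have h3 : e ∘ x = f' ∘ fun i => (⟨x i, h2 i⟩ : sub (L := L) s) := by
      funext i
      exact he1 _ (h2 i)
    rw [h3, f'.map_rel]
    rfl
  have hin' : (∀ i, x i ∈ sub (L := L) t) → (RelMap R (e ∘ x) ↔ RelMap R x) := by
    intro h2
    have h3 : e ∘ x = g' ∘ fun i => (⟨x i, h2 i⟩ : sub (L := L) t) := by
      funext i
      exact he2 _ (h2 i)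
    rw [h3, g'.map_rel]
    rfl
  constructor
  · intro hR
    rcases hrel k R _ hR with h | h
    · refine (hin fun i => ?_).1 hR
      by_contra hi
      obtain ⟨n, hn⟩ := h i
      have hn' : f' n = e (x i) := hn
      rw [he2 _ (hcov _ hi)] at hn'
      exact hi (hmeet' n.1 n.2 _ _ hn').2.1
    · refine (hin' fun i => ?_).1 hR
      by_cases hi : x i ∈ sub (L := L) s
      · obtain ⟨p, hp⟩ := h i
        have hp' : g' p = e (x i) := hp
        rw [he1 _ hi] at hp'
        exact (hmeet' _ hi p.1 p.2 hp'.symm).2.2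
      · exact hcov _ hi
  · intro hR
    rcases hF k R x (mem_univ _) hR with h | h
    · exact (hin h).2 hR
    · exact (hin' h).2 hR

omit [L.IsRelational] in
/-- Free amalgamation is a special case of disjoint amalgamation. -/
theorem disjoint_of_free {K : Set (Bundled.{0} L.Structure)} (h : FreeAmalgamation K) :
    DisjointAmalgamation K := by
  intro M N P f g hM hN hP
  obtain ⟨Q, f', g', hQ, h1, -, h3, -⟩ := h M N P f g hM hN hP
  exact ⟨Q, f', g', hQ, h1, h3⟩

end Pool.Agent.Lib.MP_62cf67_lc
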