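import Pool.Agent.Lib.MP_62cf67_lc.Trans

/-!
# The factorization over the reduct and a class of the line of the hypergraphs
-/

namespace Pool.Agent.Lib.MP_62cf67_lc

open FirstOrder FirstOrder.Language FirstOrder.Language.Structure CategoryTheory Set

open scoped FirstOrder

variable {L : FirstOrder.Language.{0, 0}} [L.IsRelational]

/-- A pair as a function on `Fin 2`. -/
def two {α : Type*} (a b : α) : Fin 2 → α
  | 0 => a
  | 1 => b

/-- A pair of elements of a pair of types. -/
def twoMk {A B : Type} (a : A) (b : B) : ∀ i, two A B i
  | 0 => a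
  | 1 => b

/-- A pair of structures. -/
@[instance_reducible]
def twoStr {L₁ L₂ : FirstOrder.Language.{0, 0}} {A B : Type} (s₁ : L₁.Structure A)
    (s₂ : L₂.Structure B) : ∀ i, (two L₁ L₂ i).Structure (two A B i)
  | 0 => s₁
  | 1 => s₂

/-- A pair of automorphisms. -/
def twoEquiv {L₁ L₂ : FirstOrder.Language.{0, 0}} {A B : Type} (s₁ : L₁.Structure A)
    (s₂ : L₂.Structure B) (σ₁ : A ≃[L₁] A) (σ₂ : B ≃[L₂] B) :
    ∀ i, @Language.Equiv (two L₁ L₂ i) (two A B i) (two A B i) (twoStr s₁ s₂ i) (twoStr s₁ s₂ i)
  | 0 => σ₁
  | 1 => σ₂

/-- Automorphisms of the factors give an automorphism of the product. -/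
def prodEquiv (E : Prop) {n : ℕ} {Ls : Fin n → FirstOrder.Language.{0, 0}} {As : Fin n → Type}
    [∀ i, (Ls i).Structure (As i)] (σ : ∀ i, As i ≃[Ls i] As i) :
    (∀ i, As i) ≃[prodLanguage E Ls] ∀ i, As i where
  toFun := fun x i => σ i (x i)
  invFun := fun x i => (σ i).symm (x i)
  left_inv := fun x => by
    funext i
    exact (σ i).left_inv (x i)
  right_inv := fun x => by
    funext i
    exact (σ i).right_inv (x i)
  map_fun' := fun f => isEmptyElim f
  map_rel' := by
    intro k R x
    cases R with
    | inl R => exact (σ R.1).map_rel R.2 fun j => x j R.1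
    | inr i =>
      constructor
      · intro h j j'
        exact (σ i.1).injective (h j j')
      · intro h j j'
        exact congrArg (σ i.1) (h j j')

omit [L.IsRelational] in
theorem sameType_of_auto {A : Type} [L.Structure A] (σ : A ≃[L] A) {k : ℕ} (a a' : Fin k → A)
    (h : ∀ i, σ (a i) = a' i) : SameType L a a' := by
  intro φ
  have h1 : a' = σ ∘ a := by
    funext i
    exact (h i).symm
  rw [h1]
  exact (StrongHomClass.realize_formula σ φ).symm

/-- If `K` does not split in `F` above `r`, then the limit factors over the reduct and the generic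
structure with symbols for the `F`-types of `r`-tuples. -/
theorem codes_or [Finite (Σ n, L.Relations n)] {K : Set (Bundled.{0} L.Structure)}
    {F : ∀ n, Set (L.Relations n)} (hF : FreeIn K F) {r : ℕ} (hr : 0 < r)
    (hns : ∀ s, r < s → ¬ SplitsIn K F s) {A : Type} [L.Structure A] [Countable A] [Infinite A]
    (hA : L.IsUltrahomogeneous A) (hage : L.age A = K) (hd : DisjointAmalgamation K)
    {E : Prop} (hind : Indecomposable E L A) :
    Codes L (baseLanguage F) A A ∨
      Codes L (typeLanguage (Set (Idx L r)) r) A (Rich (Set (Idx L r)) r) := by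
  classical
  let I := Set (Idx L r)
  let sI : (typeLanguage I r).Structure A := mkType fun T f => typ F f = T
  have hsub : (typeLanguage I r).age A ⊆ (typeLanguage I r).age (Rich I r) := by
    rintro ⟨V, sV⟩ ⟨hfg, -⟩
    have : Finite V := Structure.fg_iff_finite.1 hfg
    exact rich_age I r hr V sV
  obtain ⟨ε⟩ := exists_embedding (rich_ultrahomogeneous I r) hsub
  have hε : ∀ (T : I) (f : Fin r → A),
      RelMap (symb r T) (fun i => ε (f i)) ↔ typ F f = T := fun T f => ε.map_rel (symb r T) f
  have hbu := base_ultrahomogeneous hF hA hage
  have hbd := base_disjoint hF hage hd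
  have hru := rich_ultrahomogeneous I r
  have hrd := rich_disjoint I r
  let sL : ∀ i, (two (baseLanguage F) (typeLanguage I r) i).Structure (two A (Rich I r) i) :=
    twoStr (baseStructure F A) inferInstance
  have key := @hind 2 (two (baseLanguage F) (typeLanguage I r)) (two A (Rich I r))
    (fun i => match i with
      | 0 => inferInstanceAs (baseLanguage F).IsRelational
      | 1 => inferInstanceAs (typeLanguage I r).IsRelational)
    (fun i => match i with
      | 0 => ?_
      | 1 => inferInstanceAs (Finite (Σ k, (typeLanguage I r).Relations k)))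
    sL
    (fun i => match i with
      | 0 => inferInstanceAs (Countable A)
      | 1 => inferInstanceAs (Countable (Rich I r)))
    (fun i => match i with
      | 0 => inferInstanceAs (Infinite A)
      | 1 => inferInstanceAs (Infinite (Rich I r)))
    (fun a => twoMk a (ε a)) (by norm_num)
    (fun i => match i with
      | 0 => hbu
      | 1 => hru)
    (fun i => match i with
      | 0 => hbd
      | 1 => hrd) ?_ ?_
  · obtain ⟨i, hi⟩ := key
    match i with
    | 0 => exact Or.inl hi
    | 1 => exact Or.inr hi
  · have h1 : Function.Injective (fun p : Σ k, (baseLanguage F).Relations k =>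
        (⟨p.1, p.2.1⟩ : Σ k, L.Relations k)) := by
      rintro ⟨k, R, hR⟩ ⟨k', R', hR'⟩ h
      simp only [Sigma.mk.injEq] at h
      obtain ⟨rfl, h2⟩ := h
      have h3 := eq_of_heq h2
      subst h3
      rfl
    exact Finite.of_injective _ h1
  · intro a b hab
    exact congrFun hab 0
  · intro k a a'
    constructor
    · intro h
      obtain ⟨σ₀, hσ₀⟩ := exists_auto hbu a a' (fun i j => eq_of_sameQF h i j)
        (fun l R y => rel_of_sameQF h R.1 y)
      obtain ⟨σ₁, hσ₁⟩ := exists_auto hru (fun i => ε (a i)) (fun i => ε (a' i))
        (fun i j => by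
          rw [ε.injective.eq_iff, ε.injective.eq_iff]
          exact eq_of_sameQF h i j)
        (fun l R y => by
          cases R with
          | symb T =>
            have h1 : typ F (fun i => a (y i)) = typ F fun i => a' (y i) := by
              ext p
              have h2 := rel_of_sameQF h p.1.2 fun i => y (p.2 i)
              exact and_congr_right fun _ => h2
            have h2 := hε T fun i => a (y i)
            have h3 := hε T fun i => a' (y i)
            rw [← h1] at h3
            exact h2.trans h3.symm)
      refine sameType_of_auto (prodEquiv E (twoEquiv (baseStructure F A) inferInstance σ₀ σ₁))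
        _ _ fun j => ?_
      funext i
      match i with
      | 0 => exact hσ₀ j
      | 1 => exact hσ₁ j
    · intro h
      have hatom : ∀ (l : ℕ) (R : (prodLanguage E (two (baseLanguage F)
          (typeLanguage I r))).Relations l) (y : Fin l → Fin k),
          RelMap R (fun i => (twoMk (a (y i)) (ε (a (y i))) : ∀ i, two A (Rich I r) i)) ↔
          RelMap R fun i => (twoMk (a' (y i)) (ε (a' (y i))) : ∀ i, two A (Rich I r) i) := by
        intro l R y
        have h1 := h (relF R y)
        rwa [realize_relF, realize_relF] at h1
      have heq : ∀ i j, a i = a j ↔ a' i = a' j := by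
        intro i j
        have h1 := h (eqF i j)
        rw [realize_eqF, realize_eqF] at h1
        constructor
        · intro h2
          exact congrFun (h1.1 (by rw [h2])) 0
        · intro h2
          exact congrFun (h1.2 (by rw [h2])) 0
      have hbase : ∀ (l : ℕ) (R : L.Relations l) (y : Fin l → Fin k), R ∉ F l →
          (RelMap R (fun i => a (y i)) ↔ RelMap R fun i => a' (y i)) :=
        fun l R y hR => hatom l (Sum.inl ⟨0, (⟨R, hR⟩ : (baseLanguage F).Relations l)⟩) y
      have htyp : ∀ g : Fin r → Fin k, typ F (fun i => a (g i)) = typ F fun i => a' (g i) := by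
        intro g
        have h1 := hatom r (Sum.inl ⟨1, (symb r (typ F fun i => a (g i)) :
          (typeLanguage I r).Relations r)⟩) g
        have h2 := hε (typ F fun i => a (g i)) fun i => a (g i)
        have h3 := hε (typ F fun i => a (g i)) fun i => a' (g i)
        exact (h3.1 (h1.1 (h2.2 rfl))).symm
      refine sameQF_of_atomic a a' heq fun l R y => ?_
      by_cases hR : R ∈ F l
      · exact rel_of_typ hns hage a a' heq hbase htyp l R hR y
      · exact hbase l R y hR

end Pool.Agent.Lib.MP_62cf67_lc
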