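import Pool.Agent.Lib.MP_62cf67_lc.Embed

/-!
# The generic `r`-uniform hypergraph exists
-/

namespace Pool.Agent.Lib.MP_62cf67_lc

open FirstOrder FirstOrder.Language FirstOrder.Language.Structure CategoryTheory Set

open scoped FirstOrder

theorem exists_gcodes : ∃ g : ℕ → Finset (Finset ℕ), ∀ (C : Finset (Finset ℕ)) (B : ℕ),
    ∃ q, B < q ∧ g q = C := by
  obtain ⟨e, he⟩ := exists_surjective_nat (Finset (Finset ℕ))
  refine ⟨fun q => e (Nat.unpair q).1, fun C B => ?_⟩
  obtain ⟨c, rfl⟩ := he C
  refine ⟨Nat.pair c (B + 1), ?_, ?_⟩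
  · have := Nat.right_le_pair c (B + 1)
    omega
  · simp only [Nat.unpair_pair]

/-- The codes. -/
noncomputable def gcode : ℕ → Finset (Finset ℕ) := exists_gcodes.choose

theorem gcode_spec (C : Finset (Finset ℕ)) (B : ℕ) : ∃ q, B < q ∧ gcode q = C :=
  exists_gcodes.choose_spec C B

/-- The carrier of the generic hypergraph. -/
def GenericGraph (_r : ℕ) : Type := ℕ

instance (r : ℕ) : Countable (GenericGraph r) := inferInstanceAs (Countable ℕ)

/-- The edge relation of the generic hypergraph. -/
def gRel (r : ℕ) (x : Fin r → ℕ) : Prop :=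
  Function.Injective x ∧
    (Finset.univ.image x).erase (Finset.univ.sup x) ∈ gcode (Finset.univ.sup x)

/-- A structure for `edgeLanguage r` from its relation. -/
@[instance_reducible]
def mkEdge {r : ℕ} {V : Type} (P : (Fin r → V) → Prop) : (edgeLanguage r).Structure V where
  funMap := fun f => isEmptyElim f
  RelMap := fun R => match R with
    | EdgeSymbol.edge => P

noncomputable instance (r : ℕ) : (edgeLanguage r).Structure (GenericGraph r) :=
  mkEdge (V := GenericGraph r) (gRel r)

theorem gRel_perm (r : ℕ) (x : Fin r → ℕ) (h : gRel r x) (σ : Equiv.Perm (Fin r)) :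
    gRel r (x ∘ σ) := by
  have h1 : Finset.univ.image (x ∘ σ) = Finset.univ.image x := by
    ext v
    simp only [Finset.mem_image, Finset.mem_univ, true_and, Function.comp_apply]
    constructor
    · rintro ⟨i, rfl⟩
      exact ⟨σ i, rfl⟩
    · rintro ⟨i, rfl⟩
      exact ⟨σ.symm i, by simp⟩
  have h2 : Finset.univ.sup (x ∘ σ) = Finset.univ.sup x := by
    have h3 : ∀ y : Fin r → ℕ, Finset.univ.sup y = (Finset.univ.image y).sup id := by
      intro y
      rw [Finset.sup_image]
      rfl
    rw [h3, h3, h1]
  exact ⟨h.1.comp σ.injective, by rw [h1, h2]; exact h.2⟩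

/-- `f` preserves the relation `P` on `S`. -/
def GPres {r : ℕ} {V : Type} (P : (Fin r → V) → Prop) (S : Set V) (f : V → ℕ) : Prop :=
  InjOn f S ∧ ∀ x : Fin r → V, (∀ i, x i ∈ S) → (gRel r (fun i => f (x i)) ↔ P x)

theorem exists_perm_of_image {r : ℕ} {V : Type} [DecidableEq V] (x y : Fin r → V)
    (hx : Function.Injective x)
    (h : Finset.univ.image x = Finset.univ.image y) : ∃ σ : Equiv.Perm (Fin r), x = y ∘ σ := by
  have h1 : ∀ i, ∃ j, y j = x i := by
    intro i
    have : x i ∈ Finset.univ.image y := by
      rw [← h]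
      exact Finset.mem_image_of_mem _ (Finset.mem_univ i)
    obtain ⟨j, -, hj⟩ := Finset.mem_image.1 this
    exact ⟨j, hj⟩
  choose s hs using h1
  have hsi : Function.Injective s := by
    intro i j hij
    apply hx
    rw [← hs i, ← hs j, hij]
  refine ⟨Equiv.ofBijective s (Finite.injective_iff_bijective.1 hsi), ?_⟩
  funext i
  exact (hs i).symm

theorem g_extend_point {r : ℕ} {V : Type} [Finite V] (P : (Fin r → V) → Prop)
    (hP : ∀ x, P x → Function.Injective x ∧ ∀ σ : Equiv.Perm (Fin r), P (x ∘ σ)) (S : Set V)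
    (f : V → ℕ) (hf : GPres P S f) (m : V) (hm : m ∉ S) :
    ∃ f' : V → ℕ, GPres P (insert m S) f' ∧ ∀ v ∈ S, f' v = f v := by
  classical
  have := Fintype.ofFinite V
  let hat : (Fin r → V) → Finset ℕ := fun x => ((Finset.univ.image x).erase m).image f
  let C : Finset (Finset ℕ) :=
    (Finset.univ.filter fun x : Fin r → V => P x ∧ (∀ i, x i ∈ insert m S) ∧
      ∃ i, x i = m).image hat
  obtain ⟨q, hqB, hqC⟩ := gcode_spec C (Finset.univ.sup f)
  have hq : ∀ v, f v < q := by
    intro v
    have := Finset.le_sup (f := f) (Finset.mem_univ v)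
    omega
  let f' : V → ℕ := Function.update f m q
  have hf'm : f' m = q := Function.update_self _ _ _
  have hf'S : ∀ v, v ≠ m → f' v = f v := fun v hv => Function.update_of_ne hv _ _
  have hSm : ∀ v ∈ S, v ≠ m := fun v hv h => hm (h ▸ hv)
  have hlt : ∀ v, v ≠ m → f' v < q := by
    intro v hv
    rw [hf'S v hv]
    exact hq v
  have hinj : InjOn f' (insert m S) := by
    rintro a (rfl | ha) b (rfl | hb) hab
    · rfl
    · have h1 := hlt b (hSm b hb)
      rw [← hab, hf'm] at h1
      exact absurd h1 (lt_irrefl _)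
    · have h1 := hlt a (hSm a ha)
      rw [hab, hf'm] at h1
      exact absurd h1 (lt_irrefl _)
    · rw [hf'S a (hSm a ha), hf'S b (hSm b hb)] at hab
      exact hf.1 ha hb hab
  refine ⟨f', ⟨hinj, ?_⟩, fun v hv => hf'S v (hSm v hv)⟩
  intro x hx
  by_cases hex : ∃ i, x i = m
  · obtain ⟨i₀, hi₀⟩ := hex
    have hsup : Finset.univ.sup (fun i => f' (x i)) = q := by
      apply le_antisymm
      · apply Finset.sup_le
        intro i _
        by_cases hi : x i = m
        · rw [hi, hf'm]
        · exact (hlt _ hi).le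
      · have := Finset.le_sup (f := fun i => f' (x i)) (Finset.mem_univ i₀)
        simp only [hi₀, hf'm] at this
        exact this
    have himg : (Finset.univ.image fun i => f' (x i)).erase q = hat x := by
      ext c
      simp only [hat, Finset.mem_erase, Finset.mem_image, Finset.mem_univ, true_and]
      constructor
      · rintro ⟨hc, i, rfl⟩
        have hi : x i ≠ m := fun h => hc (by rw [h, hf'm])
        exact ⟨x i, ⟨hi, i, rfl⟩, (hf'S _ hi).symm⟩
      · rintro ⟨v, ⟨hv, i, rfl⟩, rfl⟩
        exact ⟨(hq _).ne, i, hf'S _ hv⟩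
    unfold gRel
    rw [hsup, himg, hqC]
    simp only [C, Finset.mem_image, Finset.mem_filter, Finset.mem_univ, true_and]
    constructor
    · rintro ⟨hxi, x', ⟨hPx', hx', j₀, hj₀⟩, hhat⟩
      have hxi' : Function.Injective x := by
        intro i j hij
        apply hxi
        simp only [hij]
      have himg2 : Finset.univ.image x = Finset.univ.image x' := by
        have h1 : (Finset.univ.image x).erase m = (Finset.univ.image x').erase m := by
          have hsubx : ∀ y : Fin r → V, (∀ i, y i ∈ insert m S) →
              ∀ v ∈ (Finset.univ.image y).erase m, v ∈ S := by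
            intro y hy v hv
            obtain ⟨hv1, hv2⟩ := Finset.mem_erase.1 hv
            obtain ⟨i, -, rfl⟩ := Finset.mem_image.1 hv2
            exact (hy i).resolve_left hv1
          ext v
          constructor
          · intro hv
            have h2 : f v ∈ hat x' := by
              rw [hhat]
              exact Finset.mem_image_of_mem f hv
            obtain ⟨w, hw, hwv⟩ := Finset.mem_image.1 h2
            rw [← hf.1 (hsubx x' hx' w hw) (hsubx x hx v hv) hwv]
            exact hw
          · intro hv
            have h2 : f v ∈ hat x := by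
              rw [← hhat]
              exact Finset.mem_image_of_mem f hv
            obtain ⟨w, hw, hwv⟩ := Finset.mem_image.1 h2
            rw [← hf.1 (hsubx x hx w hw) (hsubx x' hx' v hv) hwv]
            exact hw
        have h3 : m ∈ Finset.univ.image x :=
          Finset.mem_image.2 ⟨i₀, Finset.mem_univ _, hi₀⟩
        have h4 : m ∈ Finset.univ.image x' :=
          Finset.mem_image.2 ⟨j₀, Finset.mem_univ _, hj₀⟩
        rw [← Finset.insert_erase h3, h1, Finset.insert_erase h4]
      obtain ⟨σ, hσ⟩ := exists_perm_of_image x x' hxi' himg2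
      rw [hσ]
      exact (hP x' hPx').2 σ
    · intro hPx
      refine ⟨?_, x, ⟨hPx, hx, i₀, hi₀⟩, rfl⟩
      intro i j hij
      exact (hP x hPx).1 (hinj (hx i) (hx j) hij)
  · push Not at hex
    have hxS : ∀ i, x i ∈ S := fun i => (hx i).resolve_left (hex i)
    have h1 : (fun i => f' (x i)) = fun i => f (x i) := by
      funext i
      exact hf'S _ (hex i)
    rw [h1]
    exact hf.2 x hxS

theorem g_extend_all {r : ℕ} {V : Type} [Finite V] (P : (Fin r → V) → Prop)
    (hP : ∀ x, P x → Function.Injective x ∧ ∀ σ : Equiv.Perm (Fin r), P (x ∘ σ)) (S : Set V)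
    (f : V → ℕ) (hf : GPres P S f) :
    ∃ f' : V → ℕ, GPres P univ f' ∧ ∀ v ∈ S, f' v = f v := by
  classical
  have h : ∀ W : Set V, W.Finite → ∃ f' : V → ℕ, GPres P (S ∪ W) f' ∧ ∀ v ∈ S, f' v = f v := by
    intro W hW
    induction W, hW using Set.Finite.induction_on with
    | empty =>
      refine ⟨f, ?_, fun v _ => rfl⟩
      rwa [union_empty]
    | @insert m W hmW hW ih =>
      obtain ⟨f', h1, h2⟩ := ih
      by_cases hm : m ∈ S
      · refine ⟨f', ?_, h2⟩
        have h4 : S ∪ insert m W = S ∪ W := by
          ext v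
          simp only [mem_union, mem_insert_iff]
          constructor
          · rintro (h | rfl | h)
            · exact Or.inl h
            · exact Or.inl hm
            · exact Or.inr h
          · rintro (h | h)
            · exact Or.inl h
            · exact Or.inr (Or.inr h)
        rw [h4]
        exact h1
      · have hm' : m ∉ S ∪ W := fun h => h.elim hm hmW
        obtain ⟨f'', g1, g2⟩ := g_extend_point P hP (S ∪ W) f' h1 m hm'
        refine ⟨f'', ?_, ?_⟩
        · rw [union_insert]
          exact g1
        · intro v hv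
          rw [g2 v (Or.inl hv), h2 v hv]
  obtain ⟨f', h1, h2⟩ := h univ (toFinite _)
  rw [union_univ] at h1
  exact ⟨f', h1, h2⟩

theorem substructure_hyper (r : ℕ) (T : (edgeLanguage r).Substructure (GenericGraph r))
    (x : Fin r → T) (h : IsEdge r x) :
    Function.Injective x ∧ ∀ σ : Equiv.Perm (Fin r), IsEdge r (x ∘ σ) := by
  have h1 : gRel r (fun i => ((x i : T) : GenericGraph r)) := h
  refine ⟨?_, fun σ => ?_⟩
  · intro i j hij
    apply h1.1
    simp only [hij]
  · exact gRel_perm r _ h1 σ

/-- The generic `r`-uniform hypergraph is a Fraïssé limit of the class of finite `r`-uniform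
hypergraphs (`r ≥ 1`). -/
theorem generic_isFraisseLimit (r : ℕ) (hr : 0 < r) :
    IsFraisseLimit (Hypergraphs r) (GenericGraph r) := by
  classical
  constructor
  · rw [isUltrahomogeneous_iff_IsExtensionPair Structure.cg_of_countable,
      isExtensionPair_iff_exists_embedding_closure_singleton_sup]
    intro S hS f m
    have hfin : Finite (Substructure.closure (edgeLanguage r) {m} ⊔ S :
        (edgeLanguage r).Substructure (GenericGraph r)) :=
      ((Substructure.fg_closure_singleton m).sup hS).finite
    set T : (edgeLanguage r).Substructure (GenericGraph r) :=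
      Substructure.closure (edgeLanguage r) {m} ⊔ S with hT
    let P : (Fin r → T) → Prop := fun x => IsEdge r x
    let h : T → ℕ := fun v => if hv : v.1 ∈ S then f ⟨v.1, hv⟩ else (0 : ℕ)
    let X : Set T := {v | v.1 ∈ S}
    have hhX : ∀ v : T, ∀ hv : v.1 ∈ S, h v = f ⟨v.1, hv⟩ := by
      intro v hv
      simp only [h, hv, dif_pos]
    have hpres : GPres P X h := by
      constructor
      · intro a ha b hb hab
        rw [hhX a ha, hhX b hb] at hab
        have h1 := congrArg Subtype.val (f.injective hab)
        exact Subtype.ext h1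
      · intro x hx
        have h1 := f.map_rel (EdgeSymbol.edge : (edgeLanguage r).Relations r)
          (fun i => (⟨(x i).1, hx i⟩ : S))
        have h2 : (fun i => h (x i)) = f ∘ fun i => (⟨(x i).1, hx i⟩ : S) := by
          funext i
          exact hhX _ (hx i)
        rw [h2]
        exact h1
    obtain ⟨f', ⟨h1, h2⟩, h3⟩ := g_extend_all P (fun x hx => substructure_hyper r T x hx) X h
      hpres
    refine ⟨⟨⟨f', fun a b hab => h1 (mem_univ a) (mem_univ b) hab⟩, fun g => isEmptyElim g, ?_⟩,
      ?_⟩
    · intro k R x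
      cases R with
      | edge => exact h2 x fun _ => mem_univ _
    · ext v
      have hv : v.1 ∈ T := (le_sup_right : S ≤ T) v.2
      have h4 : f' ⟨v.1, hv⟩ = f v := by
        rw [h3 ⟨v.1, hv⟩ v.2, hhX ⟨v.1, hv⟩ v.2]
      exact h4.symm
  · apply Set.Subset.antisymm
    · rintro ⟨N, sN⟩ ⟨hfg, ⟨e⟩⟩
      refine ⟨Structure.fg_iff_finite.1 hfg, fun x hx => ?_⟩
      have h1 : gRel r (fun i => e (x i)) := (e.map_rel _ x).2 hx
      refine ⟨fun i j hij => h1.1 (by simp only [hij]), fun σ => ?_⟩
      exact (e.map_rel _ (x ∘ σ)).1 (gRel_perm r _ h1 σ)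
    · rintro ⟨N, sN⟩ ⟨hfin, hN⟩
      refine ⟨Structure.fg_iff_finite.2 hfin, ?_⟩
      obtain ⟨f', ⟨h1, h2⟩, -⟩ := g_extend_all (V := N) (fun x => IsEdge r x) hN ∅
        (fun _ => 0) ⟨fun a ha => absurd ha (notMem_empty a),
          fun _ hx => absurd (hx ⟨0, hr⟩) (notMem_empty _)⟩
      refine ⟨⟨⟨f', fun a b hab => h1 (mem_univ a) (mem_univ b) hab⟩,
        fun g => isEmptyElim g, ?_⟩⟩
      intro k R x
      cases R with
      | edge => exact h2 x fun _ => mem_univ _

end Pool.Agent.Lib.MP_62cf67_lc
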