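import Pool.Agent.Lib.MP_62cf67_lc.Factor

/-!
# The class is the join of the base class and the class of hypergraphs
-/

namespace Pool.Agent.Lib.MP_62cf67_lc

open FirstOrder FirstOrder.Language FirstOrder.Language.Structure CategoryTheory Set

open scoped FirstOrder

variable {L : FirstOrder.Language.{0, 0}} [L.IsRelational]

omit [L.IsRelational] in
/-- The expansion by the `F`-types of `r`-tuples is coded in the generic hypergraph. -/
theorem codes_types [Finite (Σ n, L.Relations n)] (F : ∀ n, Set (L.Relations n)) {r : ℕ}
    (hr : 0 < r) {A : Type} [L.Structure A] [Countable A] {H : Type}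
    [(edgeLanguage r).Structure H] (hH : (edgeLanguage r).IsUltrahomogeneous H)
    (hHage : (edgeLanguage r).age H = Hypergraphs r) :
    @Codes (typeLanguage (Set (Idx L r)) r) (edgeLanguage r) A H
      (mkType fun T f => typ F f = T) _ := by
  let sI : (typeLanguage (Set (Idx L r)) r).Structure A := mkType fun T f => typ F f = T
  refine codes_in_hypergraph (L := typeLanguage (Set (Idx L r)) r) hr ?_ rfl hH hHage
  rintro s hs ⟨s₀, s₁, -, -, hagree, k, R, x, hdiff⟩
  apply hdiff
  apply hagree k R x
  right
  intro hsurj
  cases R with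
  | symb i =>
    have h1 := Fintype.card_le_of_surjective x hsurj
    rw [Fintype.card_fin, Fintype.card_fin] at h1
    omega

/-- If the base class and the class of hypergraphs are coded in a structure, then so is `K`. -/
theorem join [Finite (Σ n, L.Relations n)] {K : Set (Bundled.{0} L.Structure)}
    {F : ∀ n, Set (L.Relations n)} {r : ℕ} (hr : 0 < r)
    (hns : ∀ s, r < s → ¬ SplitsIn K F s) {A : Type} [L.Structure A] [Countable A]
    (hage : L.age A = K) {H : Type} [(edgeLanguage r).Structure H]
    (hH : (edgeLanguage r).IsUltrahomogeneous H)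
    (hHage : (edgeLanguage r).age H = Hypergraphs r) {q : Prop}
    {L' : FirstOrder.Language.{0, 0}} {M : Type} [L'.Structure M]
    (h₁ : CodesG q (baseLanguage F) L' A M) (h₂ : CodesG q (edgeLanguage r) L' H M) :
    CodesG q L L' A M := by
  classical
  let I := Set (Idx L r)
  let sI : (typeLanguage I r).Structure A := mkType fun T f => typ F f = T
  have h₃ : CodesG q (typeLanguage I r) L' A M :=
    CodesG.trans (codes_types F hr hH hHage) h₂
  obtain ⟨m, hm, u, hu, hθ⟩ := h₁
  obtain ⟨m', hm', u', hu', hθ'⟩ := h₃
  have : Nonempty (Fin m ⊕ Fin m') := ⟨Sum.inl ⟨0, hm⟩⟩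
  choose θ hqf hr1 using hθ
  choose θ' hqf' hr2 using hθ'
  refine codesG_of (J := Fin m ⊕ Fin m') (fun a => Sum.elim (u a) (u' a)) ?_ ?_
  · intro a b hab
    apply hu
    funext j
    exact congrFun hab (Sum.inl j)
  · intro n R
    refine ⟨((Fin n × Fin n × Fin m) ⊕ {p : Idx L n // p.1.2 ∉ F p.1.1}) ⊕
        ((Fin r → Fin n) × I), inferInstance,
      Sum.elim (Sum.elim (fun p => eqF (p.1, Sum.inl p.2.2) (p.2.1, Sum.inl p.2.2))
        (fun p => (θ p.1.1.1 (⟨p.1.1.2, p.2⟩ : (baseLanguage F).Relations p.1.1.1)).relabel
          fun c => (p.1.2 c.1, Sum.inl c.2)))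
        (fun p => (θ' r (symb r p.2)).relabel fun c => (p.1 c.1, Sum.inr c.2)), ?_, ?_⟩
    · rintro ((p | p) | p) hq
      · exact eqF_isQF _ _
      · exact (hqf _ _ hq).relabel _
      · exact (hqf' _ _ hq).relabel _
    · intro a a' hpat hR
      have heq : ∀ i j, a i = a j ↔ a' i = a' j := by
        intro i j
        have h : ∀ c : Fin m, u (a i) c = u (a j) c ↔ u (a' i) c = u (a' j) c := by
          intro c
          have h := hpat (Sum.inl (Sum.inl (i, j, c)))
          simp only [Sum.elim_inl, realize_eqF] at h
          exact h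
        constructor
        · intro h2
          apply hu
          funext c
          exact (h c).1 (by rw [h2])
        · intro h2
          apply hu
          funext c
          exact (h c).2 (by rw [h2])
      have hbase : ∀ (k : ℕ) (R : L.Relations k) (y : Fin k → Fin n), R ∉ F k →
          (RelMap R (fun i => a (y i)) ↔ RelMap R fun i => a' (y i)) := by
        intro k R y hR
        have h := hpat (Sum.inl (Sum.inr ⟨⟨⟨k, R⟩, y⟩, hR⟩))
        simp only [Sum.elim_inl, Sum.elim_inr, Formula.realize_relabel] at h
        have h1 := hr1 k (⟨R, hR⟩ : (baseLanguage F).Relations k) fun i => a (y i)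
        have h2 := hr1 k (⟨R, hR⟩ : (baseLanguage F).Relations k) fun i => a' (y i)
        exact h1.trans (h.trans h2.symm)
      have htyp : ∀ g : Fin r → Fin n, typ F (fun i => a (g i)) = typ F fun i => a' (g i) := by
        intro g
        have h := hpat (Sum.inr (g, typ F fun i => a (g i)))
        simp only [Sum.elim_inr, Formula.realize_relabel] at h
        have h1 := hr2 r (symb r (typ F fun i => a (g i))) fun i => a (g i)
        have h2 := hr2 r (symb r (typ F fun i => a (g i))) fun i => a' (g i)
        exact ((h1.trans (h.trans h2.symm)).1 rfl).symm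
      by_cases hRF : R ∈ F n
      · have hfin := rel_of_typ hns hage a a' heq hbase htyp n R hRF (fun i => i)
        exact hfin.1 hR
      · exact (hbase n R (fun i => i) hRF).1 hR

end Pool.Agent.Lib.MP_62cf67_lc
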