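import Pool.Agent.Lib.MP_62cf67_lc.Join
import Pool.Agent.Lib.MP_62cf67_lc.Generic

/-!
# Main theorem: free symbols give no new irreducible dividing lines
-/

namespace Pool.Agent.Lib.MP_62cf67_lc

open FirstOrder FirstOrder.Language FirstOrder.Language.Structure CategoryTheory Set

open scoped FirstOrder

variable {L : FirstOrder.Language.{0, 0}}

theorem exists_bound [Finite (Σ n, L.Relations n)] (K : Set (Bundled.{0} L.Structure))
    (F : ∀ n, Set (L.Relations n)) : ∃ m, ∀ s, SplitsIn K F s → s ≤ m := by
  obtain ⟨m, hm⟩ := (Set.finite_range (fun p : Σ n, L.Relations n => p.1)).bddAbove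
  refine ⟨m, ?_⟩
  rintro s ⟨s₀, s₁, -, -, hagree, k, R, x, hdiff⟩
  have hsurj : Function.Surjective x := by
    by_contra h
    exact hdiff (hagree k R x (Or.inr h))
  have h1 := Fintype.card_le_of_surjective x hsurj
  rw [Fintype.card_fin, Fintype.card_fin] at h1
  exact h1.trans (hm ⟨⟨k, R⟩, rfl⟩)

theorem splits_cases [Finite (Σ n, L.Relations n)] (K : Set (Bundled.{0} L.Structure))
    (F : ∀ n, Set (L.Relations n)) : (∀ s, 1 < s → ¬ SplitsIn K F s) ∨
      ∃ r, 2 ≤ r ∧ SplitsIn K F r ∧ ∀ s, r < s → ¬ SplitsIn K F s := by
  classical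
  by_cases h : ∃ s, 1 < s ∧ SplitsIn K F s
  · right
    obtain ⟨s, hs, hsp⟩ := h
    obtain ⟨m, hm⟩ := exists_bound K F
    refine ⟨Nat.findGreatest (fun s => SplitsIn K F s) m, ?_, ?_, ?_⟩
    · exact hs.trans_le (Nat.le_findGreatest (hm s hsp) hsp)
    · exact Nat.findGreatest_spec (P := fun s => SplitsIn K F s) (hm s hsp) hsp
    · intro t ht htp
      exact Nat.findGreatest_is_greatest ht (hm t htp) htp
  · left
    push Not at h
    exact h

variable [L.IsRelational]

/-- The main theorem. -/
theorem main [Finite (Σ n, L.Relations n)] {K : Set (Bundled.{0} L.Structure)} {A : Type}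
    [L.Structure A] [Countable A] [Infinite A] (hlim : IsFraisseLimit K A)
    (hd : DisjointAmalgamation K) {F : ∀ n, Set (L.Relations n)} (hF : FreeIn K F) :
    Codes L (baseLanguage F) A A ∨
      ∃ r, 2 ≤ r ∧ SplitsIn K F r ∧ (∀ s, r < s → ¬ SplitsIn K F s) ∧
        ∃ (H : Type) (_ : (edgeLanguage r).Structure H) (_ : Countable H),
          IsFraisseLimit (Hypergraphs r) H ∧
          Codes (edgeLanguage r) L H A ∧
          (∀ (L' : FirstOrder.Language.{0, 0}) (M : Type) [L'.Structure M],
            (Codes (baseLanguage F) L' A M → Codes (edgeLanguage r) L' H M → Codes L L' A M) ∧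
            (CodedIn (baseLanguage F) L' A M → CodedIn (edgeLanguage r) L' H M →
              CodedIn L L' A M)) ∧
          ∀ E : Prop, Indecomposable E L A →
            Codes L (baseLanguage F) A A ∨ Codes L (edgeLanguage r) A H := by
  have hA := hlim.ultrahomogeneous
  have hage := hlim.age
  rcases splits_cases K F with h | ⟨r, hr, hsp, hns⟩
  · exact Or.inl (codes_in_base h hage)
  · have hr0 : 0 < r := by omega
    have hH := generic_isFraisseLimit r hr0
    refine Or.inr ⟨r, hr, hsp, hns, GenericGraph r, inferInstance, inferInstance, hH, ?_, ?_, ?_⟩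
    · have hK : Hereditary K := by
        rw [← hage]
        exact age.hereditary A
      exact codes_hypergraph hK hF hr0 hsp hA hage hd hH.age.subset
    · intro L' M _
      refine ⟨fun h1 h2 => codesG_true.1 ?_, fun h1 h2 => codesG_false.1 ?_⟩
      · exact join hr0 hns hage hH.ultrahomogeneous hH.age (codesG_true.2 h1) (codesG_true.2 h2)
      · exact join hr0 hns hage hH.ultrahomogeneous hH.age (codesG_false.2 h1)
          (codesG_false.2 h2)
    · intro E hind
      rcases codes_or hF hr0 hns hA hage hd hind with h | h
      · exact Or.inl h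
      · right
        have hfin : Finite (Set (Idx L r)) := inferInstance
        have h2 : Codes (typeLanguage (Set (Idx L r)) r) (edgeLanguage r)
            (Rich (Set (Idx L r)) r) (GenericGraph r) :=
          codes_in_hypergraph hr0 (rich_not_splits (Set (Idx L r)) r) rfl
            hH.ultrahomogeneous hH.age
        exact h.trans h2

/-- A class with free amalgamation is equivalent to the class of pure sets or to the class of
`r`-uniform hypergraphs for some `r ≥ 2`. -/
theorem main_free [Finite (Σ n, L.Relations n)] {K : Set (Bundled.{0} L.Structure)} {A : Type}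
    [L.Structure A] [Countable A] [Infinite A] (hlim : IsFraisseLimit K A)
    (hfree : FreeAmalgamation K) :
    Codes L (baseLanguage fun n => (univ : Set (L.Relations n))) A A ∨
      ∃ r, 2 ≤ r ∧ ∃ (H : Type) (_ : (edgeLanguage r).Structure H) (_ : Countable H),
        IsFraisseLimit (Hypergraphs r) H ∧
        Codes (edgeLanguage r) L H A ∧ Codes L (edgeLanguage r) A H := by
  have hA := hlim.ultrahomogeneous
  have hage := hlim.age
  have hK : Hereditary K := by
    rw [← hage]
    exact age.hereditary A
  have hF := freeIn_of_freeAmalgamation hK hfree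
  rcases splits_cases K fun _ => univ with h | ⟨r, hr, hsp, hns⟩
  · exact Or.inl (codes_in_base h hage)
  · have hr0 : 0 < r := by omega
    have hH := generic_isFraisseLimit r hr0
    exact Or.inr ⟨r, hr, GenericGraph r, inferInstance, inferInstance, hH,
      codes_hypergraph hK hF hr0 hsp hA hage (disjoint_of_free hfree) hH.age.subset,
      codes_in_hypergraph hr0 hns hage hH.ultrahomogeneous hH.age⟩

end Pool.Agent.Lib.MP_62cf67_lc
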