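import Pool.Agent.Lib.MP_62cf67_lc.Base

/-!
# The generic structure of a language with finitely many symbols of the same arity

For a finite type `I` of relation symbols of arity `r ≥ 1` we give an explicit structure on `ℕ`
which is the generic limit of the class of all finite structures.
-/

namespace Pool.Agent.Lib.MP_62cf67_lc

open FirstOrder FirstOrder.Language FirstOrder.Language.Structure CategoryTheory Set

open scoped FirstOrder

/-- Relation symbols indexed by `I`, all of arity `r`. -/
inductive TypeSymbol (I : Type) (r : ℕ) : ℕ → Type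
  | symb : I → TypeSymbol I r r

/-- The language with relation symbols of arity `r`, indexed by `I`. -/
def typeLanguage (I : Type) (r : ℕ) : FirstOrder.Language.{0, 0} :=
  ⟨fun _ => Empty, TypeSymbol I r⟩

instance (I : Type) (r : ℕ) : (typeLanguage I r).IsRelational :=
  fun _ => inferInstanceAs (IsEmpty Empty)

/-- The relation symbol with index `T`. -/
def symb {I : Type} (r : ℕ) (T : I) : (typeLanguage I r).Relations r := TypeSymbol.symb T

/-- A structure for `typeLanguage I r` from its relations. -/
@[instance_reducible]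
def mkType {I : Type} {r : ℕ} {V : Type} (P : I → (Fin r → V) → Prop) :
    (typeLanguage I r).Structure V where
  funMap := fun f => isEmptyElim f
  RelMap := fun R => match R with
    | TypeSymbol.symb T => P T

instance (I : Type) [Finite I] (r : ℕ) : Finite (Σ k, (typeLanguage I r).Relations k) := by
  have h : Function.Surjective (fun T : I => (⟨r, symb r T⟩ :
      Σ k, (typeLanguage I r).Relations k)) := by
    rintro ⟨k, ⟨T⟩⟩
    exact ⟨T, rfl⟩
  exact Finite.of_surjective _ h

/-- The shape of a tuple: the maximum is replaced by `none`. -/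
def shape {r : ℕ} (x : Fin r → ℕ) : Fin r → Option ℕ :=
  fun i => if x i = Finset.univ.sup x then none else some (x i)

theorem exists_codes (I : Type) [Finite I] (r : ℕ) :
    ∃ g : ℕ → Finset (I × (Fin r → Option ℕ)), ∀ (C : Finset (I × (Fin r → Option ℕ))) (B : ℕ),
      ∃ q, B < q ∧ g q = C := by
  have : Countable (Finset (I × (Fin r → Option ℕ))) := inferInstance
  obtain ⟨e, he⟩ := exists_surjective_nat (Finset (I × (Fin r → Option ℕ)))
  refine ⟨fun q => e (Nat.unpair q).1, fun C B => ?_⟩
  obtain ⟨c, rfl⟩ := he C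
  refine ⟨Nat.pair c (B + 1), ?_, ?_⟩
  · have := Nat.right_le_pair c (B + 1)
    omega
  · simp only [Nat.unpair_pair]

/-- The codes. -/
noncomputable def code (I : Type) [Finite I] (r : ℕ) : ℕ → Finset (I × (Fin r → Option ℕ)) :=
  (exists_codes I r).choose

theorem code_spec (I : Type) [Finite I] (r : ℕ) (C : Finset (I × (Fin r → Option ℕ))) (B : ℕ) :
    ∃ q, B < q ∧ code I r q = C :=
  (exists_codes I r).choose_spec C B

/-- The carrier of the generic structure. -/
def Rich (_I : Type) (_r : ℕ) : Type := ℕ

instance (I : Type) (r : ℕ) : Countable (Rich I r) := inferInstanceAs (Countable ℕ)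

instance (I : Type) (r : ℕ) : Infinite (Rich I r) := inferInstanceAs (Infinite ℕ)

/-- The relations of the generic structure. -/
def richRel (I : Type) [Finite I] (r : ℕ) (T : I) (x : Fin r → ℕ) : Prop :=
  (T, shape x) ∈ code I r (Finset.univ.sup x)

noncomputable instance (I : Type) [Finite I] (r : ℕ) :
    (typeLanguage I r).Structure (Rich I r) :=
  mkType (V := Rich I r) (richRel I r)

/-- `f` preserves the relations `P` on `S`. -/
def Pres {I : Type} [Finite I] {r : ℕ} {V : Type} (P : I → (Fin r → V) → Prop) (S : Set V)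
    (f : V → ℕ) : Prop :=
  InjOn f S ∧ ∀ (T : I) (x : Fin r → V), (∀ i, x i ∈ S) →
    (richRel I r T (fun i => f (x i)) ↔ P T x)

theorem extend_point {I : Type} [Finite I] {r : ℕ} {V : Type} [Finite V]
    (P : I → (Fin r → V) → Prop) (S : Set V) (f : V → ℕ) (hf : Pres P S f) (m : V) (hm : m ∉ S)
    (B : ℕ) : ∃ f' : V → ℕ, Pres P (insert m S) f' ∧ (∀ v ∈ S, f' v = f v) ∧ B < f' m := by
  classical
  have := Fintype.ofFinite V
  have := Fintype.ofFinite I
  let hat : (Fin r → V) → Fin r → Option ℕ := fun x i => if x i = m then none else some (f (x i))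
  let C : Finset (I × (Fin r → Option ℕ)) :=
    (Finset.univ.filter fun p : I × (Fin r → V) => P p.1 p.2 ∧ ∀ i, p.2 i ∈ insert m S).image
      fun p => (p.1, hat p.2)
  obtain ⟨q, hqB, hqC⟩ := code_spec I r C (B + Finset.univ.sup f)
  have hq : ∀ v, f v < q := by
    intro v
    have := Finset.le_sup (f := f) (Finset.mem_univ v)
    omega
  let f' : V → ℕ := Function.update f m q
  have hf'm : f' m = q := Function.update_self _ _ _
  have hf'S : ∀ v, v ≠ m → f' v = f v := fun v hv => Function.update_of_ne hv _ _
  have hSm : ∀ v ∈ S, v ≠ m := fun v hv h => hm (h ▸ hv)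
  have hlt : ∀ v, v ≠ m → f' v < q := by
    intro v hv
    rw [hf'S v hv]
    exact hq v
  refine ⟨f', ⟨?_, ?_⟩, fun v hv => hf'S v (hSm v hv), by rw [hf'm]; omega⟩
  · rintro a (rfl | ha) b (rfl | hb) hab
    · rfl
    · have h1 := hlt b (hSm b hb)
      rw [← hab, hf'm] at h1
      exact absurd h1 (lt_irrefl _)
    · have h1 := hlt a (hSm a ha)
      rw [hab, hf'm] at h1
      exact absurd h1 (lt_irrefl _)
    · rw [hf'S a (hSm a ha), hf'S b (hSm b hb)] at hab
      exact hf.1 ha hb hab
  · intro T x hx
    by_cases hex : ∃ i, x i = m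
    · obtain ⟨i₀, hi₀⟩ := hex
      have hsup : Finset.univ.sup (fun i => f' (x i)) = q := by
        apply le_antisymm
        · apply Finset.sup_le
          intro i _
          by_cases hi : x i = m
          · rw [hi, hf'm]
          · exact (hlt _ hi).le
        · have := Finset.le_sup (f := fun i => f' (x i)) (Finset.mem_univ i₀)
          simp only [hi₀, hf'm] at this
          exact this
      have hshape : shape (fun i => f' (x i)) = hat x := by
        funext i
        unfold shape
        rw [hsup]
        by_cases hi : x i = m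
        · simp only [hat, hi, hf'm, if_true]
        · rw [if_neg (hlt _ hi).ne]
          simp only [hat, hi, if_false]
          rw [hf'S _ hi]
      unfold richRel
      rw [hsup, hshape, hqC]
      simp only [C, Finset.mem_image, Finset.mem_filter, Finset.mem_univ, true_and, Prod.mk.injEq]
      constructor
      · rintro ⟨⟨T', x'⟩, ⟨hP, hx'⟩, rfl, hhat⟩
        have hxx : x' = x := by
          funext i
          have h1 := congrFun hhat i
          simp only [hat] at h1
          by_cases hi : x i = m
          · by_cases hi' : x' i = m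
            · rw [hi, hi']
            · rw [if_neg hi', if_pos hi] at h1
              exact absurd h1 (by simp)
          · by_cases hi' : x' i = m
            · rw [if_pos hi', if_neg hi] at h1
              exact absurd h1 (by simp)
            · rw [if_neg hi', if_neg hi, Option.some_inj] at h1
              exact hf.1 ((hx' i).resolve_left hi') ((hx i).resolve_left hi) h1
        rw [← hxx]
        exact hP
      · intro hP
        exact ⟨(T, x), ⟨hP, hx⟩, rfl, rfl⟩
    · push Not at hex
      have hxS : ∀ i, x i ∈ S := fun i => (hx i).resolve_left (hex i)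
      have h1 : (fun i => f' (x i)) = fun i => f (x i) := by
        funext i
        exact hf'S _ (hex i)
      rw [h1]
      exact hf.2 T x hxS

theorem extend_all {I : Type} [Finite I] {r : ℕ} {V : Type} [Finite V]
    (P : I → (Fin r → V) → Prop) (S : Set V) (f : V → ℕ) (hf : Pres P S f) (B : ℕ) :
    ∃ f' : V → ℕ, Pres P univ f' ∧ (∀ v ∈ S, f' v = f v) ∧ ∀ v, v ∉ S → B < f' v := by
  classical
  have h : ∀ W : Set V, W.Finite → ∃ f' : V → ℕ, Pres P (S ∪ W) f' ∧ (∀ v ∈ S, f' v = f v) ∧
      ∀ v ∈ W, v ∉ S → B < f' v := by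
    intro W hW
    induction W, hW using Set.Finite.induction_on with
    | empty =>
      refine ⟨f, ?_, fun v _ => rfl, fun v hv => absurd hv (notMem_empty v)⟩
      rwa [union_empty]
    | @insert m W hmW hW ih =>
      obtain ⟨f', h1, h2, h3⟩ := ih
      by_cases hm : m ∈ S
      · refine ⟨f', ?_, h2, ?_⟩
        · have h4 : S ∪ insert m W = S ∪ W := by
            ext v
            simp only [mem_union, mem_insert_iff]
            constructor
            · rintro (h | rfl | h)
              · exact Or.inl h
              · exact Or.inl hm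
              · exact Or.inr h
            · rintro (h | h)
              · exact Or.inl h
              · exact Or.inr (Or.inr h)
          rw [h4]
          exact h1
        · rintro v (rfl | hv) hvS
          · exact absurd hm hvS
          · exact h3 v hv hvS
      · have hm' : m ∉ S ∪ W := fun h => h.elim hm hmW
        obtain ⟨f'', g1, g2, g3⟩ := extend_point P (S ∪ W) f' h1 m hm' B
        refine ⟨f'', ?_, ?_, ?_⟩
        · rw [union_insert]
          exact g1
        · intro v hv
          rw [g2 v (Or.inl hv), h2 v hv]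
        · rintro v (rfl | hv) hvS
          · exact g3
          · rw [g2 v (Or.inr hv)]
            exact h3 v hv hvS
  obtain ⟨f', h1, h2, h3⟩ := h univ (toFinite _)
  rw [union_univ] at h1
  exact ⟨f', h1, h2, fun v hv => h3 v (mem_univ v) hv⟩

theorem pres_empty {I : Type} [Finite I] {r : ℕ} (hr : 0 < r) {V : Type}
    (P : I → (Fin r → V) → Prop) (f : V → ℕ) : Pres P ∅ f :=
  ⟨fun a ha => absurd ha (notMem_empty a), fun _ _ hx => absurd (hx ⟨0, hr⟩) (notMem_empty _)⟩

theorem rich_ultrahomogeneous (I : Type) [Finite I] (r : ℕ) :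
    (typeLanguage I r).IsUltrahomogeneous (Rich I r) := by
  classical
  rw [isUltrahomogeneous_iff_IsExtensionPair Structure.cg_of_countable,
    isExtensionPair_iff_exists_embedding_closure_singleton_sup]
  intro S hS f m
  have hfin : Finite (Substructure.closure (typeLanguage I r) {m} ⊔ S :
      (typeLanguage I r).Substructure (Rich I r)) :=
    ((Substructure.fg_closure_singleton m).sup hS).finite
  set T : (typeLanguage I r).Substructure (Rich I r) :=
    Substructure.closure (typeLanguage I r) {m} ⊔ S with hT
  let P : I → (Fin r → T) → Prop := fun i x => RelMap (symb r i) x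
  let h : T → ℕ := fun v => if hv : v.1 ∈ S then f ⟨v.1, hv⟩ else (0 : ℕ)
  let X : Set T := {v | v.1 ∈ S}
  have hhX : ∀ v : T, ∀ hv : v.1 ∈ S, h v = f ⟨v.1, hv⟩ := by
    intro v hv
    simp only [h, hv, dif_pos]
  have hpres : Pres P X h := by
    constructor
    · intro a ha b hb hab
      rw [hhX a ha, hhX b hb] at hab
      have h1 := congrArg Subtype.val (f.injective hab)
      exact Subtype.ext h1
    · intro i x hx
      have h1 := f.map_rel (symb r i) (fun i => (⟨(x i).1, hx i⟩ : S))
      have h2 : (fun i => h (x i)) = f ∘ fun i => (⟨(x i).1, hx i⟩ : S) := by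
        funext i
        exact hhX _ (hx i)
      rw [h2]
      exact h1
  obtain ⟨f', ⟨h1, h2⟩, h3, -⟩ := extend_all P X h hpres 0
  refine ⟨⟨⟨f', fun a b hab => h1 (mem_univ a) (mem_univ b) hab⟩, fun g => isEmptyElim g, ?_⟩, ?_⟩
  · intro k R x
    cases R with
    | symb i => exact h2 i x fun _ => mem_univ _
  · ext v
    have hv : v.1 ∈ T := (le_sup_right : S ≤ T) v.2
    have h4 : f' ⟨v.1, hv⟩ = f v := by
      rw [h3 ⟨v.1, hv⟩ v.2, hhX ⟨v.1, hv⟩ v.2]
    exact h4.symm

theorem rich_age (I : Type) [Finite I] (r : ℕ) (hr : 0 < r) (V : Type) [Finite V]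
    (sV : (typeLanguage I r).Structure V) :
    (⟨V, sV⟩ : Bundled.{0} (typeLanguage I r).Structure) ∈ (typeLanguage I r).age (Rich I r) := by
  refine ⟨Structure.fg_iff_finite.2 ‹_›, ?_⟩
  obtain ⟨f', ⟨h1, h2⟩, -, -⟩ := extend_all (fun i x => sV.RelMap (symb r i) x) ∅
    (fun _ => 0) (pres_empty hr _ _) 0
  refine ⟨⟨⟨f', fun a b hab => h1 (mem_univ a) (mem_univ b) hab⟩, fun g => isEmptyElim g, ?_⟩⟩
  intro k R x
  cases R with
  | symb i => exact h2 i x fun _ => mem_univ _

theorem rich_disjoint (I : Type) [Finite I] (r : ℕ) :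
    DisjointAmalgamation ((typeLanguage I r).age (Rich I r)) := by
  classical
  rintro ⟨M, sM⟩ ⟨N, sN⟩ ⟨P, sP⟩ f g hM hN hP
  obtain ⟨n₀⟩ := hN.2
  have hNf : Finite N := Structure.fg_iff_finite.1 hN.1
  have hPf : Finite P := Structure.fg_iff_finite.1 hP.1
  have hgi : Function.Injective g := g.injective
  let X : Set P := range g
  let h : P → ℕ := fun p => if hp : ∃ m, g m = p then n₀ (f hp.choose) else (0 : ℕ)
  have hhX : ∀ m, h (g m) = n₀ (f m) := by
    intro m
    have hp : ∃ m', g m' = g m := ⟨m, rfl⟩
    have h1 : hp.choose = m := hgi hp.choose_spec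
    simp only [h, hp, dif_pos]
    rw [h1]
  have hpres : Pres (fun i x => sP.RelMap (symb r i) x) X h := by
    constructor
    · rintro _ ⟨a, rfl⟩ _ ⟨b, rfl⟩ hab
      rw [hhX, hhX] at hab
      rw [f.injective (n₀.injective hab)]
    · intro i x hx
      choose m hm using hx
      have h1 : x = fun i => g (m i) := by
        funext i
        exact (hm i).symm
      subst h1
      simp only [hhX]
      have h2 := n₀.map_rel (symb r i) (f ∘ m)
      have h3 := f.map_rel (symb r i) m
      have h4 := g.map_rel (symb r i) m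
      exact (h2.trans h3).trans h4.symm
  have := Fintype.ofFinite N
  let n₁ : N → ℕ := fun n => n₀ n
  obtain ⟨g', ⟨h1, h2⟩, h3, h4⟩ := extend_all _ X h hpres (Finset.univ.sup n₁)
  have hcomm : ∀ m, n₀ (f m) = g' (g m) := by
    intro m
    rw [h3 (g m) ⟨m, rfl⟩, hhX]
  have hg'i : Function.Injective g' := fun a b hab => h1 (mem_univ a) (mem_univ b) hab
  let Q : (typeLanguage I r).Substructure (Rich I r) := sub (range n₀ ∪ range g')
  refine ⟨⟨Q, inferInstance⟩,
    ⟨⟨fun n => ⟨n₀ n, Or.inl ⟨n, rfl⟩⟩, fun a b hab => n₀.injective (congrArg Subtype.val hab)⟩,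
      fun u => isEmptyElim u, ?_⟩,
    ⟨⟨fun p => ⟨g' p, Or.inr ⟨p, rfl⟩⟩, fun a b hab => hg'i (congrArg Subtype.val hab)⟩,
      fun u => isEmptyElim u, ?_⟩, ?_, fun m => Subtype.ext (hcomm m), ?_⟩
  · intro k R x
    exact n₀.map_rel R x
  · intro k R x
    cases R with
    | symb i => exact h2 i _ fun _ => mem_univ _
  · exact subB_mem rfl _ ((finite_range n₀).union (finite_range g'))
  · intro n p hnp
    have h5 : n₀ n = g' p := congrArg Subtype.val hnp
    by_cases hp : p ∈ X
    · obtain ⟨m, rfl⟩ := hp
      refine ⟨m, ?_, rfl⟩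
      rw [← hcomm] at h5
      exact (n₀.injective h5).symm
    · have h6 := h4 p hp
      have h7 := Finset.le_sup (f := n₁) (Finset.mem_univ n)
      have h8 : n₁ n = g' p := h5
      rw [← h8] at h6
      exact absurd h6 (not_lt.2 h7)

theorem rich_not_splits (I : Type) [Finite I] (r : ℕ) (s : ℕ) (hs : r < s) :
    ¬ SplitsIn ((typeLanguage I r).age (Rich I r)) (fun _ => univ) s := by
  rintro ⟨s₀, s₁, -, -, hagree, k, R, x, hdiff⟩
  apply hdiff
  apply hagree k R x
  right
  intro hsurj
  cases R with
  | symb i =>
    have h1 := Fintype.card_le_of_surjective x hsurj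
    rw [Fintype.card_fin, Fintype.card_fin] at h1
    omega

end Pool.Agent.Lib.MP_62cf67_lc
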