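import Pool.Agent.Lib.MP_62cf67_lc.Unary
import Pool.Agent.Lib.MP_62cf67_lc.Rich

/-!
# Codings compose; automorphisms of ultrahomogeneous structures
-/

namespace Pool.Agent.Lib.MP_62cf67_lc

open FirstOrder FirstOrder.Language FirstOrder.Language.Structure CategoryTheory Set

open scoped FirstOrder

variable {L : FirstOrder.Language.{0, 0}} [L.IsRelational]

/-- In a relational language the terms are variables. -/
theorem term_eq_var {α : Type} (t : L.Term (α ⊕ Fin 0)) : ∃ a : α, t = Term.var (Sum.inl a) := by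
  cases t with
  | var a =>
    cases a with
    | inl a => exact ⟨a, rfl⟩
    | inr i => exact i.elim0
  | func f _ => exact isEmptyElim f

/-- The pullback of a quantifier-free formula along a coding. -/
theorem exists_pullback {q : Prop} {L₂ : FirstOrder.Language.{0, 0}} {A A₂ : Type} [L.Structure A]
    [L₂.Structure A₂] {m : ℕ} (u : A → Fin m → A₂) (hu : Function.Injective u)
    (h : ∀ (r : ℕ) (R : L.Relations r), ∃ θ : L₂.Formula (Fin r × Fin m), (q → θ.IsQF) ∧
      ∀ a : Fin r → A, RelMap R a ↔ θ.Realize fun p => u (a p.1) p.2)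
    {α : Type} (φ : L.Formula α) (hφ : φ.IsQF) :
    ∃ θ : L₂.Formula (α × Fin m), (q → θ.IsQF) ∧ ∀ v : α → A,
      φ.Realize v ↔ θ.Realize fun p => u (v p.1) p.2 := by
  unfold Formula at φ
  induction hφ with
  | falsum =>
    refine ⟨⊥, fun _ => BoundedFormula.isQF_bot, fun v => ?_⟩
    simp only [Formula.Realize]
    rfl
  | @of_isAtomic φ hφ =>
    cases hφ with
    | equal t₁ t₂ =>
      obtain ⟨a, rfl⟩ := term_eq_var t₁
      obtain ⟨b, rfl⟩ := term_eq_var t₂
      obtain ⟨θ, hθ, hr⟩ := exists_qf (L := L₂) (fun j : Fin m => eqF (a, j) (b, j))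
        (fun _ => eqF_isQF _ _) {p | ∀ j, p j}
      refine ⟨θ, fun _ => hθ, fun v => ?_⟩
      rw [hr, Set.mem_ofPred_eq]
      simp only [realize_eqF]
      have h1 : Formula.Realize ((Term.var (Sum.inl a) : L.Term (α ⊕ Fin 0)).bdEqual
          (Term.var (Sum.inl b))) v ↔ v a = v b := by
        simp [Formula.Realize, BoundedFormula.realize_bdEqual]
      rw [h1]
      constructor
      · intro h2 j
        rw [h2]
      · intro h2
        exact hu (funext h2)
    | @rel l R ts =>
      choose a ha using fun i => term_eq_var (ts i)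
      obtain ⟨θ, hθ, hr⟩ := h l R
      refine ⟨θ.relabel fun p => (a p.1, p.2), fun hq => (hθ hq).relabel _, fun v => ?_⟩
      rw [Formula.realize_relabel]
      have h1 : Formula.Realize (R.boundedFormula ts : L.BoundedFormula α 0) v ↔
          RelMap R fun i => v (a i) := by
        simp [Formula.Realize, BoundedFormula.realize_rel, ha]
      rw [h1, hr fun i => v (a i)]
      rfl
  | @imp φ₁ φ₂ _ _ ih₁ ih₂ =>
    obtain ⟨θ₁, h₁, r₁⟩ := ih₁
    obtain ⟨θ₂, h₂, r₂⟩ := ih₂
    refine ⟨θ₁.imp θ₂, fun hq => (h₁ hq).imp (h₂ hq), fun v => ?_⟩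
    have e1 := r₁ v
    have e2 := r₂ v
    simp only [Formula.Realize] at e1 e2 ⊢
    rw [BoundedFormula.realize_imp, BoundedFormula.realize_imp, e1, e2]

omit [L.IsRelational] in
/-- Codings compose. -/
theorem CodesG.trans {q : Prop} {L₁ L₂ : FirstOrder.Language.{0, 0}} {A₁ A A₂ : Type}
    [L₁.Structure A₁] [L.Structure A] [L₂.Structure A₂] [L.IsRelational]
    (h₁ : Codes L₁ L A₁ A) (h₂ : CodesG q L L₂ A A₂) : CodesG q L₁ L₂ A₁ A₂ := by
  obtain ⟨m, hm, u, hu, hθ⟩ := h₁
  obtain ⟨m', hm', u', hu', hθ'⟩ := h₂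
  have : Nonempty (Fin m × Fin m') := ⟨(⟨0, hm⟩, ⟨0, hm'⟩)⟩
  refine codesG_of (J := Fin m × Fin m') (fun a p => u' (u a p.1) p.2) ?_ ?_
  · intro a b hab
    apply hu
    funext j
    apply hu'
    funext j'
    exact congrFun hab (j, j')
  · intro r R
    obtain ⟨θ, hqf, hr⟩ := hθ r R
    obtain ⟨θ', hqf', hr'⟩ := exists_pullback u' hu' hθ' θ hqf
    refine ⟨Unit, inferInstance, fun _ => θ'.relabel fun p => (p.1.1, (p.1.2, p.2)),
      fun _ hq => (hqf' hq).relabel _, ?_⟩
    intro a a' hpat hR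
    have h := hpat ()
    rw [Formula.realize_relabel, Formula.realize_relabel] at h
    rw [hr, hr'] at hR ⊢
    exact h.1 hR

omit [L.IsRelational] in
/-- Codings compose. -/
theorem Codes.trans {L₁ L₂ : FirstOrder.Language.{0, 0}} {A₁ A A₂ : Type} [L₁.Structure A₁]
    [L.Structure A] [L₂.Structure A₂] [L.IsRelational] (h₁ : Codes L₁ L A₁ A)
    (h₂ : Codes L L₂ A A₂) : Codes L₁ L₂ A₁ A₂ :=
  codesG_true.1 (CodesG.trans h₁ (codesG_true.2 h₂))

/-- Tuples with the same atomic facts have the same quantifier-free type. -/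
theorem sameQF_of_atomic {A : Type} [L.Structure A] {k : ℕ} (a a' : Fin k → A)
    (heq : ∀ i j, a i = a j ↔ a' i = a' j)
    (hrel : ∀ (l : ℕ) (R : L.Relations l) (y : Fin l → Fin k),
      RelMap R (fun i => a (y i)) ↔ RelMap R fun i => a' (y i)) : SameQF L a a' := by
  intro φ hφ
  unfold Formula at φ
  induction hφ with
  | falsum => exact Iff.rfl
  | @of_isAtomic φ hφ =>
    cases hφ with
    | equal t₁ t₂ =>
      obtain ⟨i, rfl⟩ := term_eq_var t₁
      obtain ⟨j, rfl⟩ := term_eq_var t₂
      have h1 : ∀ v : Fin k → A, Formula.Realize ((Term.var (Sum.inl i) :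
          L.Term (Fin k ⊕ Fin 0)).bdEqual (Term.var (Sum.inl j))) v ↔ v i = v j := by
        intro v
        simp [Formula.Realize, BoundedFormula.realize_bdEqual]
      rw [h1, h1]
      exact heq i j
    | @rel l R ts =>
      choose y hy using fun i => term_eq_var (ts i)
      have h1 : ∀ v : Fin k → A, Formula.Realize (R.boundedFormula ts :
          L.BoundedFormula (Fin k) 0) v ↔ RelMap R fun i => v (y i) := by
        intro v
        simp [Formula.Realize, BoundedFormula.realize_rel, hy]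
      rw [h1, h1]
      exact hrel l R y
  | @imp φ₁ φ₂ _ _ ih₁ ih₂ =>
    simp only [Formula.Realize] at ih₁ ih₂ ⊢
    rw [BoundedFormula.realize_imp, BoundedFormula.realize_imp, ih₁, ih₂]

omit [L.IsRelational] in
theorem eq_of_sameQF {A : Type} [L.Structure A] {k : ℕ} {a a' : Fin k → A}
    (h : SameQF L a a') (i j : Fin k) : a i = a j ↔ a' i = a' j := by
  have h1 := h (eqF i j) (eqF_isQF _ _)
  rwa [realize_eqF, realize_eqF] at h1

omit [L.IsRelational] in
theorem rel_of_sameQF {A : Type} [L.Structure A] {k : ℕ} {a a' : Fin k → A}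
    (h : SameQF L a a') {l : ℕ} (R : L.Relations l) (y : Fin l → Fin k) :
    RelMap R (fun i => a (y i)) ↔ RelMap R fun i => a' (y i) := by
  have h1 := h (relF R y) (relF_isQF _ _)
  rwa [realize_relF, realize_relF] at h1

/-- Tuples with the same atomic facts are conjugate in an ultrahomogeneous structure. -/
theorem exists_auto {A : Type} [L.Structure A] (hA : L.IsUltrahomogeneous A) {k : ℕ}
    (a a' : Fin k → A) (heq : ∀ i j, a i = a j ↔ a' i = a' j)
    (hrel : ∀ (l : ℕ) (R : L.Relations l) (y : Fin l → Fin k),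
      RelMap R (fun i => a (y i)) ↔ RelMap R fun i => a' (y i)) :
    ∃ σ : A ≃[L] A, ∀ i, σ (a i) = a' i := by
  let S : L.Substructure A := sub (range a)
  have hex : ∀ v : S, ∃ i, a i = v := fun v => v.2
  choose c hc using hex
  have hfg : S.FG := by
    rw [Substructure.fg_iff_structure_fg, Structure.fg_iff_finite]
    exact inferInstanceAs (Finite (range a))
  let f : S ↪[L] A := toEmb (fun v => a' (c v))
    (fun v w hvw => by
      have h1 := (heq _ _).2 hvw
      rw [hc, hc] at h1
      exact Subtype.ext h1)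
    (fun l R x => by
      have h1 := hrel l R fun i => c (x i)
      have h2 : (fun i => a (c (x i))) = fun i => ((x i : S) : A) := by
        funext i
        exact hc _
      rw [h2] at h1
      exact h1.symm)
  obtain ⟨σ, hσ⟩ := hA S hfg f
  refine ⟨σ, fun i => ?_⟩
  have h1 := congrArg (fun g : S ↪[L] A => g ⟨a i, ⟨i, rfl⟩⟩) hσ
  have h2 : f ⟨a i, ⟨i, rfl⟩⟩ = σ (a i) := h1
  rw [← h2]
  change a' (c ⟨a i, ⟨i, rfl⟩⟩) = a' i
  exact (heq _ _).1 (hc ⟨a i, ⟨i, rfl⟩⟩)

end Pool.Agent.Lib.MP_62cf67_lc
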