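import Pool.Agent.Lib.MP_62cf67_lc.Base

/-!
# Symbols that do not split at `s ≥ 2`

If the class `K` does not split in `F` at any `s ≥ 2`, then it is coded in the class of its
reducts to the symbols outside `F`.
-/

namespace Pool.Agent.Lib.MP_62cf67_lc

open FirstOrder FirstOrder.Language FirstOrder.Language.Structure CategoryTheory Set

open scoped FirstOrder

variable {L : FirstOrder.Language.{0, 0}} [L.IsRelational]

theorem codes_in_base [Finite (Σ n, L.Relations n)] {K : Set (Bundled.{0} L.Structure)}
    {F : ∀ n, Set (L.Relations n)} (hns : ∀ s, 1 < s → ¬ SplitsIn K F s) {A : Type}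
    [L.Structure A] [Infinite A] (hage : L.age A = K) : Codes L (baseLanguage F) A A := by
  classical
  have hg : ∀ a : A, ∃ b, b ≠ a := fun a => exists_ne a
  choose g hg using hg
  let u : A → Option (Set (Idx L 1)) → A := fun a o => match o with
    | none => a
    | some T => if typ F (fun _ : Fin 1 => a) = T then a else g a
  have hu1 : ∀ a, u a none = a := fun a => rfl
  have hu2 : ∀ a T, u a none = u a (some T) ↔ typ F (fun _ : Fin 1 => a) = T := by
    intro a T
    change a = (if typ F (fun _ : Fin 1 => a) = T then a else g a) ↔ _
    split_ifs with h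
    · exact ⟨fun _ => h, fun _ => rfl⟩
    · exact ⟨fun h' => absurd h'.symm (hg a), fun h' => absurd h' h⟩
  refine codes_of u (fun a a' h => ?_) ?_
  · exact congrFun h none
  · intro n R
    refine ⟨((Fin n × Fin n) ⊕ (Fin n × Set (Idx L 1))) ⊕
        {p : Idx L n // p.1.2 ∉ F p.1.1}, inferInstance,
      Sum.elim (Sum.elim (fun p => eqF (p.1, none) (p.2, none))
        (fun p => eqF (p.1, none) (p.1, some p.2)))
        (fun p => relF (⟨p.1.1.2, p.2⟩ : (baseLanguage F).Relations p.1.1.1)
          fun i => (p.1.2 i, none)), ?_, ?_⟩
    · rintro ((p | p) | p)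
      · exact eqF_isQF _ _
      · exact eqF_isQF _ _
      · exact relF_isQF _ _
    · intro a a' hpat hR
      have heq : ∀ i j, a i = a j ↔ a' i = a' j := by
        intro i j
        have h := hpat (Sum.inl (Sum.inl (i, j)))
        simp only [Sum.elim_inl, realize_eqF] at h
        exact h
      have hbase : ∀ (k : ℕ) (R : L.Relations k) (y : Fin k → Fin n), R ∉ F k →
          (RelMap R (fun i => a (y i)) ↔ RelMap R fun i => a' (y i)) := by
        intro k R y hR
        have h := hpat (Sum.inr ⟨⟨⟨k, R⟩, y⟩, hR⟩)
        simp only [Sum.elim_inr, realize_relF] at h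
        exact h
      have htyp1 : ∀ i, typ F (fun _ : Fin 1 => a i) = typ F (fun _ : Fin 1 => a' i) := by
        intro i
        have h := hpat (Sum.inl (Sum.inr (i, typ F (fun _ : Fin 1 => a i))))
        simp only [Sum.elim_inl, Sum.elim_inr, realize_eqF] at h
        rw [hu2, hu2] at h
        exact (h.1 rfl).symm
      have htyp : ∀ f : Fin 1 → Fin n, typ F (fun i => a (f i)) = typ F fun i => a' (f i) := by
        intro f
        have h1 : (fun i => a (f i)) = fun _ => a (f 0) := by
          funext i
          rw [Subsingleton.elim i 0]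
        have h2 : (fun i => a' (f i)) = fun _ => a' (f 0) := by
          funext i
          rw [Subsingleton.elim i 0]
        rw [h1, h2]
        exact htyp1 (f 0)
      by_cases hRF : R ∈ F n
      · have hfin := rel_of_typ hns hage a a' heq hbase htyp n R hRF (fun i => i)
        exact hfin.1 hR
      · exact (hbase n R (fun i => i) hRF).1 hR

end Pool.Agent.Lib.MP_62cf67_lc
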