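import Pool.Agent.Lib.MP_62cf67_lc.Det

/-!
# A class that does not split above `r` is coded in the generic `r`-uniform hypergraph
-/

namespace Pool.Agent.Lib.MP_62cf67_lc

open FirstOrder FirstOrder.Language FirstOrder.Language.Structure CategoryTheory Set

open scoped FirstOrder

variable {L : FirstOrder.Language.{0, 0}} [L.IsRelational]

/-- The hypergraph on `A × Set (Idx L r) × Fin r` that codes the types of the `r`-tuples. -/
@[instance_reducible]
def codeGraph (L : FirstOrder.Language.{0, 0}) (r : ℕ) (A : Type) [L.Structure A] :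
    (edgeLanguage r).Structure (A × Set (Idx L r) × Fin r) where
  funMap := fun f => isEmptyElim f
  RelMap := fun {k} _ w => ∃ (h : k = r) (f : Fin r → A) (σ : Equiv.Perm (Fin r)),
    ∀ i, w (Fin.cast h.symm (σ i)) = (f i, typ (fun _ => univ) f, i)

theorem isEdge_codeGraph (L : FirstOrder.Language.{0, 0}) (r : ℕ) (A : Type) [L.Structure A]
    (w : Fin r → A × Set (Idx L r) × Fin r) :
    @IsEdge r _ (codeGraph L r A) w ↔ ∃ (f : Fin r → A) (σ : Equiv.Perm (Fin r)),
      ∀ i, w (σ i) = (f i, typ (fun _ => univ) f, i) := by
  constructor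
  · rintro ⟨_, f, σ, h⟩
    exact ⟨f, σ, h⟩
  · rintro ⟨f, σ, h⟩
    exact ⟨rfl, f, σ, h⟩

theorem codes_in_hypergraph [Finite (Σ n, L.Relations n)] {K : Set (Bundled.{0} L.Structure)}
    {r : ℕ} (hr : 0 < r) (hns : ∀ s, r < s → ¬ SplitsIn K (fun _ => univ) s) {A : Type}
    [L.Structure A] [Countable A] (hage : L.age A = K) {H : Type}
    [(edgeLanguage r).Structure H] (hH : (edgeLanguage r).IsUltrahomogeneous H)
    (hHage : (edgeLanguage r).age H = Hypergraphs r) : Codes L (edgeLanguage r) A H := by
  classical
  let sG : (edgeLanguage r).Structure (A × Set (Idx L r) × Fin r) := codeGraph L r A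
  have hageG : (edgeLanguage r).age (A × Set (Idx L r) × Fin r) ⊆ (edgeLanguage r).age H := by
    rw [hHage]
    rintro ⟨N, sN⟩ ⟨hfg, ⟨e⟩⟩
    refine ⟨Structure.fg_iff_finite.1 hfg, fun x hx => ?_⟩
    have hx' : IsEdge r (e ∘ x) := (e.map_rel _ x).2 hx
    obtain ⟨f, σ, h⟩ := (isEdge_codeGraph L r A _).1 hx'
    refine ⟨?_, fun τ => ?_⟩
    · have h1 : Function.Injective (e ∘ x) := by
        intro a b hab
        obtain ⟨a', rfl⟩ := σ.surjective a
        obtain ⟨b', rfl⟩ := σ.surjective b
        rw [h a', h b'] at hab
        have h2 : a' = b' := congrArg (fun p => p.2.2) hab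
        rw [h2]
      exact h1.of_comp
    · have h1 : IsEdge r (e ∘ (x ∘ τ)) := by
        rw [isEdge_codeGraph]
        refine ⟨f, σ.trans τ.symm, fun i => ?_⟩
        have h3 := h i
        simp only [Function.comp_apply, Equiv.trans_apply, Equiv.apply_symm_apply]
        exact h3
      exact (e.map_rel _ (x ∘ τ)).1 h1
  obtain ⟨ε⟩ := exists_embedding hH hageG
  let j₀ : Set (Idx L r) × Fin r := (∅, ⟨0, hr⟩)
  have : Nonempty (Set (Idx L r) × Fin r) := ⟨j₀⟩
  refine codes_of (J := Set (Idx L r) × Fin r) (fun a j => ε (a, j)) ?_ ?_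
  · intro a a' h
    exact congrArg Prod.fst (ε.injective (congrFun h j₀))
  · intro n R
    refine ⟨(Fin n × Fin n) ⊕ ((Fin r → Fin n) × Set (Idx L r)), inferInstance,
      Sum.elim (fun p => eqF (p.1, j₀) (p.2, j₀))
        (fun q => relF (L := edgeLanguage r) (EdgeSymbol.edge : (edgeLanguage r).Relations r)
          fun i => (q.1 i, (q.2, i))), ?_, ?_⟩
    · rintro (p | q)
      · exact eqF_isQF _ _
      · exact relF_isQF _ _
    · intro a a' hpat hR
      have heq : ∀ i j, a i = a j ↔ a' i = a' j := by
        intro i j
        have h := hpat (Sum.inl (i, j))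
        simp only [Sum.elim_inl, realize_eqF] at h
        constructor
        · intro h1
          exact congrArg Prod.fst (ε.injective (h.1 (by rw [h1])))
        · intro h1
          exact congrArg Prod.fst (ε.injective (h.2 (by rw [h1])))
      have hcode : ∀ (b : Fin n → A) (g : Fin r → Fin n) (T : Set (Idx L r)),
          ((relF (L := edgeLanguage r) (EdgeSymbol.edge : (edgeLanguage r).Relations r)
            fun i => (g i, (T, i))).Realize
              (fun p : Fin n × (Set (Idx L r) × Fin r) => ε (b p.1, p.2))) ↔
            typ (fun _ => univ) (fun i => b (g i)) = T := by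
        intro b g T
        rw [realize_relF]
        have h3 : (fun i => ε (b (g i), (T, i))) = ε ∘ fun i => (b (g i), (T, i)) := rfl
        rw [h3, ε.map_rel]
        have h4 := isEdge_codeGraph L r A fun i => (b (g i), (T, i))
        refine h4.trans ⟨?_, ?_⟩
        · rintro ⟨f, σ, h⟩
          have h5 : ∀ i, σ i = i := fun i => congrArg (fun p => p.2.2) (h i)
          have h6 : f = fun i => b (g i) := by
            funext i
            have := congrArg (fun p => p.1) (h i)
            simp only [h5] at this
            exact this.symm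
          have h7 := congrArg (fun p => p.2.1) (h ⟨0, hr⟩)
          simp only at h7
          rw [← h6, ← h7]
        · intro h
          exact ⟨fun i => b (g i), Equiv.refl _, fun i => by rw [h]; rfl⟩
      have htyp : ∀ g : Fin r → Fin n, typ (fun _ => univ) (fun i => a (g i)) =
          typ (L := L) (fun _ => univ) fun i => a' (g i) := by
        intro g
        have h := hpat (Sum.inr (g, typ (fun _ => univ) fun i => a (g i)))
        simp only [Sum.elim_inr] at h
        rw [hcode a g, hcode a' g] at h
        exact (h.1 rfl).symm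
      have hfin := rel_of_typ hns hage a a' heq
        (fun k R y hR => absurd (mem_univ R) hR) htyp n R (mem_univ R) (fun i => i)
      exact hfin.1 hR

end Pool.Agent.Lib.MP_62cf67_lc
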